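import Pool.Agent.H63.NG.Log

/-! Extension of a torsion-free `ℤ[G]`-module with commuting locally unipotent action to `ℚ`. -/

set_option autoImplicit false

open Finset Module TensorProduct

namespace Pool.Agent.H63.NG

section Ext

variable {A : Type*} [AddCommGroup A]

/-- the rational hull -/
abbrev VV (A : Type*) [AddCommGroup A] : Type _ := ℚ ⊗[ℤ] A

/-- embedding into the rational hull -/
noncomputable def jj (a : A) : VV A := (1 : ℚ) ⊗ₜ[ℤ] a

lemma jj_add (a b : A) : jj (a + b) = jj a + jj b := by simp [jj, tmul_add]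

lemma jj_zero : jj (0 : A) = 0 := by simp [jj]

lemma jj_zsmul (n : ℤ) (a : A) : jj (n • a) = (n : ℚ) • jj a := by
  rw [jj, jj, tmul_smul, Int.cast_smul_eq_zsmul]

lemma jj_sum {ι : Type*} (s : Finset ι) (f : ι → A) : jj (∑ i ∈ s, f i) = ∑ i ∈ s, jj (f i) := by
  classical
  induction s using Finset.induction_on with
  | empty => simp [jj_zero]
  | insert a s ha ih => rw [sum_insert ha, sum_insert ha, jj_add, ih]

/-- `A` is torsion-free -/
def TF (A : Type*) [AddCommGroup A] : Prop := ∀ (n : ℤ) (a : A), n ≠ 0 → n • a = 0 → a = 0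

lemma loc_jj (A : Type*) [AddCommGroup A] :
    IsLocalizedModule (nonZeroDivisors ℤ) (TensorProduct.mk ℤ ℚ A 1) :=
  (isLocalizedModule_iff_isBaseChange (nonZeroDivisors ℤ) ℚ _).2 (TensorProduct.isBaseChange ℤ A ℚ)

lemma jj_inj (htf : TF A) : Function.Injective (jj : A → VV A) := by
  intro a b hab
  have := loc_jj A
  have h1 : TensorProduct.mk ℤ ℚ A 1 a = TensorProduct.mk ℤ ℚ A 1 b := hab
  obtain ⟨c, hc⟩ := (IsLocalizedModule.eq_iff_exists (nonZeroDivisors ℤ)
    (TensorProduct.mk ℤ ℚ A 1)).1 h1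
  have hc0 : (c : ℤ) ≠ 0 := nonZeroDivisors.ne_zero c.2
  have hc' : (c : ℤ) • a = (c : ℤ) • b := hc
  have : (c : ℤ) • (a - b) = 0 := by rw [smul_sub, hc', sub_self]
  exact sub_eq_zero.1 (htf _ _ hc0 this)

lemma jj_surj (v : VV A) : ∃ n : ℤ, n ≠ 0 ∧ ∃ a : A, (n : ℚ) • v = jj a := by
  have := loc_jj A
  obtain ⟨⟨a, c⟩, h⟩ := IsLocalizedModule.surj (nonZeroDivisors ℤ) (TensorProduct.mk ℤ ℚ A 1) v
  refine ⟨c, nonZeroDivisors.ne_zero c.2, a, ?_⟩
  rw [Int.cast_smul_eq_zsmul]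
  exact h

/-- extension of endomorphisms -/
noncomputable def BB : Module.End ℤ A →ₐ[ℤ] Module.End ℚ (VV A) := Module.End.baseChangeHom ℤ ℚ A

lemma BB_jj (f : Module.End ℤ A) (a : A) : BB f (jj a) = jj (f a) := by
  simp only [BB, jj]
  exact LinearMap.baseChange_tmul ..

lemma BB_ext_zero {f : Module.End ℤ A} {v : VV A} {n : ℤ} (hn : n ≠ 0) {a : A}
    (h : (n : ℚ) • v = jj a) (hf : f a = 0) : BB f v = 0 := by
  have h1 : (n : ℚ) • BB f v = 0 := by rw [← map_smul, h, BB_jj, hf, jj_zero]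
  exact (smul_eq_zero.1 h1).resolve_left (by exact_mod_cast hn)

end Ext

/-- a group acting with commuting locally unipotent operators on a torsion-free abelian group -/
structure Act {G A : Type*} [Group G] [AddCommGroup A] (T : G →* Module.End ℤ A) : Prop where
  tf : TF A
  comm : ∀ g h, T g * T h = T h * T g
  lu : ∀ g a, ∃ n : ℕ, ((T g - 1) ^ n) a = 0
  nofix : ∀ a, (∀ g, T g a = a) → a = 0

section ActLemmas

variable {G A : Type*} [Group G] [AddCommGroup A] {T : G →* Module.End ℤ A}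

lemma Act.LU (hT : Act T) (g : G) : LU (BB (T g)) := by
  intro v
  obtain ⟨n, hn, a, ha⟩ := jj_surj v
  obtain ⟨k, hk⟩ := hT.lu g a
  refine ⟨k, ?_⟩
  have : (BB (T g) - 1) ^ k = BB ((T g - 1) ^ k) := by
    rw [map_pow, map_sub, map_one]
  rw [this]
  exact BB_ext_zero hn ha hk

/-- the logarithm operators -/
noncomputable def Act.X (hT : Act T) (g : G) : Module.End ℚ (VV A) := lg (BB (T g)) (hT.LU g)

lemma Act.commBB (hT : Act T) (g h : G) : Commute (BB (T g)) (BB (T h)) := by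
  change BB (T g) * BB (T h) = BB (T h) * BB (T g)
  calc BB (T g) * BB (T h) = BB (T g * T h) := (map_mul BB _ _).symm
    _ = BB (T h * T g) := by rw [hT.comm]
    _ = _ := map_mul BB _ _

lemma Act.commXB (hT : Act T) {r : Module.End ℤ A} (hr : ∀ g, Commute r (T g)) (g : G) :
    Commute (BB r) (hT.X g) := by
  apply lg_commute
  change BB r * BB (T g) = BB (T g) * BB r
  rw [← map_mul, ← map_mul, (hr g).eq]

lemma Act.fam (hT : Act T) : Fam hT.X where
  add g h := by
    have h1 := lg_mul (hT.commBB g h) (hT.LU g) (hT.LU h)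
      (by rw [← map_mul, ← map_mul]; exact hT.LU (g * h))
    rw [← show hT.X g = lg _ (hT.LU g) from rfl, ← show hT.X h = lg _ (hT.LU h) from rfl] at h1
    rw [← h1]
    unfold Act.X
    congr 1
    rw [← map_mul, ← map_mul]
  comm g h := (lg_commute (hT.LU h) ((lg_commute (hT.LU g) (hT.commBB h g)).symm)).eq
  nil g v := by
    obtain ⟨n, hn⟩ := hT.LU g v
    exact ⟨n, lg_nil _ _ _ hn⟩
  nofix v hv := by
    obtain ⟨n, hn, a, ha⟩ := jj_surj v
    have h1 : ∀ g, BB (T g) v = v := fun g => lg_ker (hT.LU g) (hv g)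
    have h2 : a = 0 := by
      apply hT.nofix
      intro g
      apply jj_inj hT.tf
      rw [← BB_jj, ← ha, map_smul, h1 g]
    rw [h2, jj_zero] at ha
    exact (smul_eq_zero.1 ha).resolve_left (by exact_mod_cast hn)

/-! ### integral logarithms -/

/-- integer coefficients `c! * (-1)^(i+1) / i` -/
def wc (c i : ℕ) : ℤ := (-1) ^ (i + 1) * ((c.factorial / i : ℕ) : ℤ)

lemma wc_cast {c i : ℕ} (hi : i ≤ c) : ((wc c i : ℤ) : ℚ) = (c.factorial : ℚ) * lc i := by
  rcases Nat.eq_zero_or_pos i with rfl | h0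
  · simp [wc, lc]
  · have hd : i ∣ c.factorial := Nat.dvd_factorial h0 hi
    have hi0 : (i : ℚ) ≠ 0 := by exact_mod_cast h0.ne'
    unfold wc lc
    rw [Int.cast_mul, Int.cast_natCast, Nat.cast_div hd hi0]
    push_cast
    ring

/-- integral logarithm -/
noncomputable def Wop (u : Module.End ℤ A) (c : ℕ) : Module.End ℤ A :=
  ∑ i ∈ range c, wc c i • u ^ i

lemma Wop_apply (u : Module.End ℤ A) (c : ℕ) (a : A) :
    Wop u c a = ∑ i ∈ range c, wc c i • (u ^ i) a := by
  simp [Wop, LinearMap.sum_apply]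

lemma Act.jj_Wop (hT : Act T) (g : G) (c : ℕ) {a : A} (ha : ((T g - 1) ^ c) a = 0) :
    jj (Wop (T g - 1) c a) = (c.factorial : ℚ) • hT.X g (jj a) := by
  have hB : ∀ k : ℕ, ((BB (T g) - 1) ^ k) (jj a) = jj (((T g - 1) ^ k) a) := by
    intro k
    have : (BB (T g) - 1) ^ k = BB ((T g - 1) ^ k) := by rw [map_pow, map_sub, map_one]
    rw [this, BB_jj]
  have h1 : ((BB (T g) - 1) ^ c) (jj a) = 0 := by rw [hB, ha, jj_zero]
  rw [Act.X, lg_eq _ h1, lgSum_apply, Finset.smul_sum, Wop_apply, jj_sum]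
  refine Finset.sum_congr rfl fun i hi => ?_
  rw [jj_zsmul, wc_cast (mem_range.1 hi).le, hB, mul_smul]

end ActLemmas

end Pool.Agent.H63.NG
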