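import Pool.Agent.H63.NG.Grp

/-! Generic perturbation of words (Claim A), the minimal pair and the final contradiction. -/

set_option autoImplicit false

open Finset Module

namespace Pool.Agent.H63.NG

variable {G A : Type*} [Group G] [AddCommGroup A] {T : G →* Module.End ℤ A}

/-- integral combinations of the operators `T k`, `k ∈ K` -/
def PP (T : G →* Module.End ℤ A) (K : Subgroup G) : Submodule ℤ (Module.End ℤ A) :=
  Submodule.span ℤ {f | ∃ k ∈ K, f = T k}

lemma PP_mul {K : Subgroup G} {k : G} (hk : k ∈ K) {r : Module.End ℤ A} (hr : r ∈ PP T K) :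
    T k * r ∈ PP T K := by
  induction hr using Submodule.span_induction with
  | mem x hx =>
    obtain ⟨l, hl, rfl⟩ := hx
    exact Submodule.subset_span ⟨k * l, K.mul_mem hk hl, by rw [map_mul]⟩
  | zero => rw [mul_zero]; exact Submodule.zero_mem _
  | add x z _ _ h1 h2 => rw [mul_add]; exact Submodule.add_mem _ h1 h2
  | smul a x _ h1 => rw [mul_smul_comm]; exact Submodule.smul_mem _ _ h1

lemma PP_comm (hT : ∀ g h, T g * T h = T h * T g) {K : Subgroup G} {r : Module.End ℤ A}
    (hr : r ∈ PP T K) (g : G) : Commute r (T g) := by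
  induction hr using Submodule.span_induction with
  | mem x hx =>
    obtain ⟨l, hl, rfl⟩ := hx
    exact hT l g
  | zero => exact Commute.zero_left _
  | add x z _ _ h1 h2 => exact h1.add_left h2
  | smul a x _ h1 => exact h1.smul_left a

lemma PP_stable {K : Subgroup G} {M : Submodule ℤ A} (hM : ∀ k ∈ K, ∀ m ∈ M, T k m ∈ M)
    {r : Module.End ℤ A} (hr : r ∈ PP T K) {m : A} (hm : m ∈ M) : r m ∈ M := by
  induction hr using Submodule.span_induction with
  | mem x hx =>
    obtain ⟨l, hl, rfl⟩ := hx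
    exact hM l hl m hm
  | zero => exact M.zero_mem
  | add x z _ _ h1 h2 => exact M.add_mem h1 h2
  | smul a x _ h1 => exact M.smul_mem _ h1

section Fox

variable {I : Type*} [Fintype I] [DecidableEq I]

/-- perturbed evaluation of words -/
def Emb.Phi (E : Emb T) (γ : I → G) (t : I → A) : FreeGroup I →* G :=
  FreeGroup.lift fun i => E.ι (t i) * γ i

omit [Fintype I] [DecidableEq I] in
lemma Emb.Phi_of (E : Emb T) (γ : I → G) (t : I → A) (i : I) :
    E.Phi γ t (FreeGroup.of i) = E.ι (t i) * γ i := by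
  simp [Emb.Phi]

omit [Fintype I] [DecidableEq I] in
lemma Emb.Phi_zero_mem (E : Emb T) (γ : I → G) (w : FreeGroup I) :
    E.Phi γ 0 w ∈ Subgroup.closure (Set.range γ) := by
  induction w using FreeGroup.induction_on with
  | C1 => rw [map_one]; exact Subgroup.one_mem _
  | of x =>
    rw [E.Phi_of, Pi.zero_apply, E.zero, one_mul]
    exact Subgroup.subset_closure ⟨x, rfl⟩
  | inv_of x ih =>
    rw [map_inv]; exact Subgroup.inv_mem _ ih
  | mul x y h1 h2 => rw [map_mul]; exact Subgroup.mul_mem _ h1 h2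

/-- Fox calculus -/
lemma Emb.fox (E : Emb T) (γ : I → G) (w : FreeGroup I) :
    ∃ r : I → Module.End ℤ A, (∀ i, r i ∈ PP T (Subgroup.closure (Set.range γ))) ∧
      ∀ t, E.Phi γ t w = E.ι (∑ i, r i (t i)) * E.Phi γ 0 w := by
  classical
  induction w using FreeGroup.induction_on with
  | C1 =>
    refine ⟨0, fun i => Submodule.zero_mem _, fun t => ?_⟩
    simp [E.zero]
  | of x =>
    refine ⟨Pi.single x 1, fun i => ?_, fun t => ?_⟩
    · by_cases hi : i = x
      · subst hi
        rw [Pi.single_eq_same]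
        exact Submodule.subset_span ⟨1, Subgroup.one_mem _, by rw [map_one]⟩
      · rw [Pi.single_eq_of_ne hi]; exact Submodule.zero_mem _
    · rw [E.Phi_of, E.Phi_of, Pi.zero_apply, E.zero, one_mul]
      congr 2
      rw [Finset.sum_eq_single x]
      · simp
      · intro i _ hi
        rw [Pi.single_eq_of_ne hi]; rfl
      · intro h; exact absurd (Finset.mem_univ _) h
  | inv_of x ih =>
    obtain ⟨r, hr, h⟩ := ih
    refine ⟨fun i => - (T ((E.Phi γ 0 (FreeGroup.of x))⁻¹) * r i), fun i => ?_, fun t => ?_⟩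
    · exact Submodule.neg_mem _ (PP_mul (Subgroup.inv_mem _ (E.Phi_zero_mem γ _)) (hr i))
    · rw [map_inv (E.Phi γ t), map_inv (E.Phi γ 0), h t, mul_inv_rev, ← E.neg, E.mul_ι]
      congr 2
      rw [map_neg, map_sum, ← Finset.sum_neg_distrib]
      rfl
  | mul x y h1 h2 =>
    obtain ⟨r, hr, h⟩ := h1
    obtain ⟨r', hr', h'⟩ := h2
    refine ⟨fun i => r i + T (E.Phi γ 0 x) * r' i, fun i => ?_, fun t => ?_⟩
    · exact Submodule.add_mem _ (hr i) (PP_mul (E.Phi_zero_mem γ _) (hr' i))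
    · rw [map_mul, map_mul, h t, h' t]
      have : E.ι (∑ i, r i (t i)) * E.Phi γ 0 x * (E.ι (∑ i, r' i (t i)) * E.Phi γ 0 y) =
          E.ι (∑ i, r i (t i)) * (E.Phi γ 0 x * E.ι (∑ i, r' i (t i))) * E.Phi γ 0 y := by group
      rw [this, E.mul_ι, ← mul_assoc, ← E.add, mul_assoc]
      congr 2
      rw [map_sum, ← Finset.sum_add_distrib]
      rfl

omit [Fintype I] [DecidableEq I] in
lemma Emb.conj_Phi (E : Emb T) (γ : I → G) (g : G) (t : I → A) (w : FreeGroup I) :
    g * E.Phi γ t w * g⁻¹ = E.Phi γ (fun i => T g (t i) + E.c g (γ i)) w := by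
  have h : ((MulAut.conj g).toMonoidHom.comp (E.Phi γ t)) =
      E.Phi γ (fun i => T g (t i) + E.c g (γ i)) := by
    apply FreeGroup.ext_hom
    intro i
    rw [MonoidHom.comp_apply, E.Phi_of, E.Phi_of, E.add, E.hc, ← E.conj]
    change g * (E.ι (t i) * γ i) * g⁻¹ = _
    group
  have := congrArg (fun f => f w) h
  simpa using this

omit [Fintype I] [DecidableEq I] in
lemma Emb.mem_range_Phi (E : Emb T) (γ : I → G) (t : I → A) {x : G}
    (hx : x ∈ Subgroup.closure (Set.range fun i => E.ι (t i) * γ i)) :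
    ∃ w, E.Phi γ t w = x := by
  have : Subgroup.closure (Set.range fun i => E.ι (t i) * γ i) ≤ (E.Phi γ t).range := by
    rw [Subgroup.closure_le]
    rintro _ ⟨i, rfl⟩
    exact ⟨FreeGroup.of i, E.Phi_of γ t i⟩
  exact this hx

end Fox

/-- Claim A -/
lemma Emb.claimA (E : Emb T) (hT : Act T) {J : Type*} [Fintype J] [DecidableEq J] (η : J → G)
    (y : Bool → G) {η₀ : G} (hη₀ : η₀ ∈ Subgroup.closure (Set.range η)) (d : A)
    (hd : ∀ v : Bool → A, E.ι ((T (y false) - 1) ((T (y true) - 1) d)) ∈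
      Subgroup.closure (Set.range (Sum.elim η (fun b => E.ι (v b) * y b)))) :
    (T (y false) - 1) ((T (y true) - 1) ((T η₀ - 1) d)) ∈
      orb T (y true) (orb T (y false) (E.KA (Subgroup.closure (Set.range η)))) := by
  classical
  set H := Subgroup.closure (Set.range η) with hH
  set N := E.KA H with hN
  let γ : J ⊕ Bool → G := Sum.elim η y
  set K := Subgroup.closure (Set.range γ) with hK
  have hKfg : K.FG := by
    rw [Subgroup.fg_iff]
    exact ⟨Set.range γ, rfl, Set.finite_range γ⟩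
  have hHK : H ≤ K := Subgroup.closure_mono (by
    rintro _ ⟨j, rfl⟩
    exact ⟨Sum.inl j, rfl⟩)
  have hyK : ∀ b, y b ∈ K := fun b => Subgroup.subset_closure ⟨Sum.inr b, rfl⟩
  set z := (T (y false) - 1) ((T (y true) - 1) d) with hz
  -- the finitely generated invariant module
  obtain ⟨M, hM1, hM2, hM3⟩ := hT.exists_inv
    (M := E.KA K ⊔ Submodule.span ℤ {z}) ((E.KA_fg hT hKfg).sup (Submodule.fg_span_singleton z)) hKfg
  have hKAM : E.KA K ≤ M := le_sup_left.trans hM1
  have hzM : z ∈ M := hM1 (Submodule.mem_sup_right (Submodule.mem_span_singleton_self z))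
  obtain ⟨v, hv⟩ := hT.generic hM2
  let t0 : J ⊕ Bool → A := Sum.elim (fun _ => 0) v
  have hrange : (Set.range (Sum.elim η (fun b => E.ι (v b) * y b))) =
      Set.range (fun i => E.ι (t0 i) * γ i) := by
    congr 1
    funext i
    rcases i with j | b
    · simp [t0, γ, E.zero]
    · simp [t0, γ]
  obtain ⟨w, hw⟩ := E.mem_range_Phi γ t0 (hrange ▸ hd v)
  obtain ⟨r, hr, hfox⟩ := E.fox γ w
  have hsum0 : ∑ i, r i (t0 i) = ∑ b, r (Sum.inr b) (v b) := by
    rw [Fintype.sum_sum_type]
    simp [t0]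
  have h1 := hfox t0
  rw [hw, hsum0] at h1
  -- Phi 0 w = ι (z - sum)
  have h2 : E.Phi γ 0 w = E.ι (z - ∑ b, r (Sum.inr b) (v b)) := by
    have h3 : z - ∑ b, r (Sum.inr b) (v b) = - (∑ b, r (Sum.inr b) (v b)) + z := by abel
    rw [h3, E.add, E.neg, h1]
    group
  have h3 : z - ∑ b, r (Sum.inr b) (v b) ∈ E.KA K := by
    rw [E.mem_KA, ← h2]
    exact E.Phi_zero_mem γ w
  have h4 : ∑ b, r (Sum.inr b) (v b) ∈ M := by
    have : ∑ b, r (Sum.inr b) (v b) = z - (z - ∑ b, r (Sum.inr b) (v b)) := by abel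
    rw [this]
    exact M.sub_mem hzM (hKAM h3)
  obtain ⟨h5, h6⟩ := hv (fun b => r (Sum.inr b)) (fun b g => PP_comm hT.comm (hr _) g)
    (fun b m hm => PP_stable hM3 (hr _) hm) h4
  rw [h6, sub_zero] at h2
  -- conjugate
  have h7 := E.conj_Phi γ η₀ 0 w
  have h8 : (fun i => T η₀ ((0 : J ⊕ Bool → A) i) + E.c η₀ (γ i)) = fun i => E.c η₀ (γ i) := by
    funext i
    rw [Pi.zero_apply, map_zero, zero_add]
  rw [h8, h2, E.conj, hfox (fun i => E.c η₀ (γ i)), h2, ← E.add] at h7
  have h9 := E.inj h7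
  -- T η₀ z - z = sum
  have h10 : (T η₀ - 1) z = ∑ j, r (Sum.inl j) (E.c η₀ (η j)) := by
    rw [LinearMap.sub_apply, h9, Module.End.one_apply, add_sub_cancel_right, Fintype.sum_sum_type]
    have : ∑ b, r (Sum.inr b) (E.c η₀ (γ (Sum.inr b))) = 0 := by
      apply Finset.sum_eq_zero
      intro b _
      exact h5 b _ (hKAM (E.c_mem (hHK hη₀) (hyK b)))
    rw [this, add_zero]
    rfl
  have h11 : (T (y false) - 1) ((T (y true) - 1) ((T η₀ - 1) d)) = (T η₀ - 1) z := by
    have c1 : Commute (T (y true) - 1) (T η₀ - 1) :=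
      (show Commute (T (y true)) (T η₀) from hT.comm _ _).sub_left (Commute.one_left _) |>.sub_right
        (Commute.one_right _)
    have c2 : Commute (T (y false) - 1) (T η₀ - 1) :=
      (show Commute (T (y false)) (T η₀) from hT.comm _ _).sub_left (Commute.one_left _) |>.sub_right
        (Commute.one_right _)
    rw [hz, ← Module.End.mul_apply (T (y true) - 1), c1.eq, Module.End.mul_apply,
      ← Module.End.mul_apply (T (y false) - 1), c2.eq, Module.End.mul_apply]
  rw [h11, h10]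
  -- the module L is invariant under K
  set L := orb T (y true) (orb T (y false) N) with hL
  have hNL : N ≤ L := (le_orb _ _).trans (le_orb _ _)
  have hKL : K ≤ stab T L := by
    rw [hK, Subgroup.closure_le]
    rintro _ ⟨i, rfl⟩
    rcases i with j | b
    · have hj : η j ∈ H := Subgroup.subset_closure ⟨j, rfl⟩
      refine ⟨fun m hm => ?_, fun m hm => ?_⟩
      · exact orb_stable (fun k => hT.comm _ _) (fun n hn => orb_stable (fun k => hT.comm _ _)
          (fun n' hn' => E.KA_inv hj hn') hn) hm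
      · exact orb_stable (fun k => hT.comm _ _) (fun n hn => orb_stable (fun k => hT.comm _ _)
          (fun n' hn' => E.KA_inv (H.inv_mem hj) hn') hn) hm
    · cases b
      · refine ⟨fun m hm => ?_, fun m hm => ?_⟩
        · refine orb_stable (fun k => hT.comm _ _) (fun n hn => ?_) hm
          have := orb_zpow (T := T) 1 hn
          rwa [zpow_one] at this
        · refine orb_stable (fun k => hT.comm _ _) (fun n hn => ?_) hm
          have := orb_zpow (T := T) (-1) hn
          rwa [zpow_neg_one] at this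
      · refine ⟨fun m hm => ?_, fun m hm => ?_⟩
        · have := orb_zpow (T := T) 1 hm
          rwa [zpow_one] at this
        · have := orb_zpow (T := T) (-1) hm
          rwa [zpow_neg_one] at this
  apply L.sum_mem
  intro j _
  refine PP_stable (fun k hk m hm => (hKL hk).1 m hm) (hr _) (hNL ?_)
  exact E.c_mem hη₀ (Subgroup.subset_closure ⟨j, rfl⟩)

/-- the minimal pair -/
lemma Emb.minpair (E : Emb T) (hG : NormalizerCondition G)
    {d₀ : A} {η : G} (h0 : E.ι ((T η - 1) d₀) ∉ Subgroup.zpowers η) :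
    ∃ (H : Subgroup G) (d : A), H.FG ∧ (∃ η ∈ H, E.ι ((T η - 1) d) ∉ H) ∧
      ∀ H' : Subgroup G, H ≤ H' → H'.FG → ∀ h ∈ H', ∀ h' ∈ H',
        E.ι ((T h' - 1) ((T h - 1) d)) ∈ H' := by
  classical
  by_contra hc
  push Not at hc
  let P : Type _ := {p : Subgroup G × A // p.1.FG ∧ ∃ η ∈ p.1, E.ι ((T η - 1) p.2) ∉ p.1}
  have step : ∀ p : P, ∃ (p' : P) (h : G), p.1.1 ≤ p'.1.1 ∧ h ∈ p'.1.1 ∧
      p'.1.2 = (T h - 1) p.1.2 := by
    rintro ⟨⟨H, d⟩, hH, hη⟩
    obtain ⟨H', hHH', hH', h, hh, h', hh', hne⟩ := hc H d hH hη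
    exact ⟨⟨⟨H', (T h - 1) d⟩, hH', h', hh', hne⟩, h, hHH', hh, rfl⟩
  choose F f hF1 hF2 hF3 using step
  have hfg0 : (Subgroup.zpowers η).FG := ⟨{η}, by simp [Subgroup.zpowers_eq_closure]⟩
  let p0 : P := ⟨⟨Subgroup.zpowers η, d₀⟩, hfg0, η, Subgroup.mem_zpowers η, h0⟩
  let s : ℕ → P := fun n => Nat.rec p0 (fun _ p => F p) n
  have hs : ∀ n, s (n + 1) = F (s n) := fun n => rfl
  have hmono : Monotone (fun n => (s n).1.1) := monotone_nat_of_le_succ fun n => by
    rw [hs]; exact hF1 _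
  -- d_m ∉ H_n for all m, n
  have hd : ∀ n m, m ≤ n → E.ι (s m).1.2 ∉ (s n).1.1 := by
    intro n m hmn hmem
    -- push up to n
    have hup : ∀ k, m + k ≤ n → E.ι (s (m + k)).1.2 ∈ (s n).1.1 := by
      intro k
      induction k with
      | zero => intro _; exact hmem
      | succ k ih =>
        intro hk
        have h1 := ih (by omega)
        have h2 : f (s (m + k)) ∈ (s n).1.1 := by
          have h3 : f (s (m + k)) ∈ (F (s (m + k))).1.1 := hF2 _
          rw [← hs] at h3
          exact hmono (show m + k + 1 ≤ n by omega) h3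
        have h4 : (s (m + (k + 1))).1.2 = (T (f (s (m + k))) - 1) (s (m + k)).1.2 := by
          rw [← add_assoc, hs, hF3]
        rw [h4, LinearMap.sub_apply, Module.End.one_apply, E.sub, ← E.conj]
        exact Subgroup.mul_mem _ (Subgroup.mul_mem _ (Subgroup.mul_mem _ h2 h1)
          (Subgroup.inv_mem _ h2)) (Subgroup.inv_mem _ h1)
    have h1 := hup (n - m) (by omega)
    rw [Nat.add_sub_cancel' hmn] at h1
    obtain ⟨η', hη', hne⟩ := (s n).2.2
    apply hne
    rw [LinearMap.sub_apply, Module.End.one_apply, E.sub, ← E.conj]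
    exact Subgroup.mul_mem _ (Subgroup.mul_mem _ (Subgroup.mul_mem _ hη' h1)
      (Subgroup.inv_mem _ hη')) (Subgroup.inv_mem _ h1)
  let K : Subgroup G := ⨆ n, (s n).1.1
  have hK : ∀ x, x ∈ K ↔ ∃ n, x ∈ (s n).1.1 := fun x =>
    Subgroup.mem_iSup_of_directed (hmono.directed_le)
  obtain ⟨n, hn⟩ := nlemma hG K (fun n => E.ι (s n).1.2) (fun n => f (s n))
    (fun n => (hK _).2 ⟨n + 1, by rw [hs]; exact hF2 _⟩)
    (fun n => by
      rw [hs, hF3, LinearMap.sub_apply, Module.End.one_apply, E.sub, ← E.conj])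
  obtain ⟨k, hk⟩ := (hK _).1 hn
  exact hd (max n k) n (le_max_left _ _) (hmono (le_max_right n k) hk)

/-- the final contradiction -/
theorem Emb.final (E : Emb T) (hT : Act T) (hG : NormalizerCondition G) {d₀ : A} {η : G}
    (h0 : E.ι ((T η - 1) d₀) ∉ Subgroup.zpowers η) : False := by
  classical
  obtain ⟨H, d, hHfg, ⟨η₀, hη₀, hb⟩, hmin⟩ := E.minpair hG h0
  obtain ⟨S, hS⟩ := hHfg
  let ηf : S → G := Subtype.val
  have hrange : Set.range ηf = (S : Set G) := Subtype.range_coe
  have hH : Subgroup.closure (Set.range ηf) = H := by rw [hrange, hS]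
  set b := (T η₀ - 1) d with hbdef
  set N := E.KA H with hN
  have hNfg : N.FG := E.KA_fg hT ⟨S, hS⟩
  -- claim A for all y
  have claim : ∀ y₀ y₁ : G, (T y₀ - 1) ((T y₁ - 1) b) ∈ orb T y₁ (orb T y₀ N) := by
    intro y₀ y₁
    have h1 := E.claimA hT ηf (fun b => if b then y₁ else y₀) (η₀ := η₀) (by rw [hH]; exact hη₀) d
      (fun v => by
        simp only [if_true, Bool.false_eq_true, if_false]
        set H' := Subgroup.closure (Set.range (Sum.elim ηf
          (fun b => E.ι (v b) * (if b then y₁ else y₀)))) with hH'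
        have hle : H ≤ H' := by
          rw [← hH]
          apply Subgroup.closure_mono
          rintro _ ⟨j, rfl⟩
          exact ⟨Sum.inl j, rfl⟩
        have hfg : H'.FG := by
          rw [Subgroup.fg_iff]
          exact ⟨_, rfl, Set.finite_range _⟩
        have m1 : E.ι (v true) * y₁ ∈ H' := Subgroup.subset_closure ⟨Sum.inr true, by simp⟩
        have m0 : E.ι (v false) * y₀ ∈ H' := Subgroup.subset_closure ⟨Sum.inr false, by simp⟩
        have h2 := hmin H' hle hfg _ m1 _ m0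
        rw [map_mul, map_mul, E.T_ι, E.T_ι, one_mul, one_mul] at h2
        exact h2)
    simp only [if_true, Bool.false_eq_true, if_false] at h1
    rw [hH] at h1
    exact h1
  have hbN : b ∉ N := hb
  -- free elements
  let M0 : Submodule ℤ A := N ⊔ Submodule.span ℤ {b}
  have hM0 : M0.FG := hNfg.sup (Submodule.fg_span_singleton b)
  have hNM0 : N ≤ M0 := le_sup_left
  have hbM0 : b ∈ M0 := Submodule.mem_sup_right (Submodule.mem_span_singleton_self b)
  obtain ⟨g1, hg1⟩ := hT.free1 hM0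
  obtain ⟨c1, hc1, hc1'⟩ := hT.nil_fg g1 hM0
  let M1 : Submodule ℤ A := orb T g1 M0
  have hM1 : M1.FG := hT.orb_fg g1 hM0
  obtain ⟨g2, hg2⟩ := hT.free1 hM1
  obtain ⟨c2, hc2, hc2'⟩ := hT.nil_fg g2 hM1
  have hM1z : ∀ k : ℤ, ∀ m ∈ M1, T (g1 ^ k) m ∈ M1 := fun k m hm => orb_zpow k hm
  apply hbN
  refine hT.lemK g1 hM0 hNM0 hbM0 hc1 hc1' (fun m hm n hn hW => hg1 m hm c1 n (hc1' m hm) hn hW) ?_
  intro q1 hq1
  set y₀ := g1 ^ (c1.factorial * q1) with hy₀
  have hy₀M1 : ∀ k : ℤ, ∀ m ∈ M1, T (y₀ ^ k) m ∈ M1 := by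
    intro k m hm
    rw [hy₀, ← zpow_natCast, ← zpow_mul]
    exact hM1z _ m hm
  have hN' : orb T y₀ N ≤ M1 := orb_le (hNM0.trans (le_orb _ _)) hy₀M1
  have hu : (T y₀ - 1) b ∈ M1 := by
    rw [LinearMap.sub_apply, Module.End.one_apply]
    have h1 := hy₀M1 1 b (le_orb _ _ hbM0)
    rw [zpow_one] at h1
    exact M1.sub_mem h1 (le_orb _ _ hbM0)
  refine hT.lemK g2 hM1 hN' hu hc2 hc2' (fun m hm n hn hW => hg2 m hm c2 n (hc2' m hm) hn hW) ?_
  intro q2 hq2
  have h1 := claim y₀ (g2 ^ (c2.factorial * q2))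
  have c1 : Commute (T (g2 ^ (c2.factorial * q2)) - 1) (T y₀ - 1) :=
    (show Commute (T (g2 ^ (c2.factorial * q2))) (T y₀) from hT.comm _ _).sub_left
      (Commute.one_left _) |>.sub_right (Commute.one_right _)
  rw [← Module.End.mul_apply, c1.eq, Module.End.mul_apply]
  exact h1

end Pool.Agent.H63.NG
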