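import Pool.Agent.H63.NG.Gen

/-! Finitely generated invariant submodules and exponents. -/

set_option autoImplicit false

open Finset Module

namespace Pool.Agent.H63.NG

section Exponent

lemma exp_bound (Q : Type*) [AddCommGroup Q] [Module.Finite ℤ Q] :
    ∃ C : ℤ, C ≠ 0 ∧ ∀ y : Q, (∃ n : ℤ, n ≠ 0 ∧ n • y = 0) → C • y = 0 := by
  classical
  let τ : Submodule ℤ Q :=
    { carrier := {y | ∃ n : ℤ, n ≠ 0 ∧ n • y = 0}
      add_mem' := by
        rintro a b ⟨n, hn, ha⟩ ⟨m, hm, hb⟩
        refine ⟨n * m, mul_ne_zero hn hm, ?_⟩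
        rw [smul_add, mul_comm n m, mul_smul, ha, smul_zero, mul_comm m n, mul_smul, hb, smul_zero,
          add_zero]
      zero_mem' := ⟨1, one_ne_zero, smul_zero _⟩
      smul_mem' := by
        rintro c y ⟨n, hn, hy⟩
        exact ⟨n, hn, by rw [smul_comm, hy, smul_zero]⟩ }
  obtain ⟨S, hS⟩ := IsNoetherian.noetherian τ
  have hmem : ∀ s ∈ S, ∃ n : ℤ, n ≠ 0 ∧ n • s = 0 := fun s hs => by
    have : s ∈ τ := hS ▸ Submodule.subset_span hs
    exact this
  choose! n hn hs using hmem
  refine ⟨∏ s ∈ S, n s, Finset.prod_ne_zero_iff.2 hn, fun y hy => ?_⟩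
  have hy' : y ∈ τ := hy
  rw [← hS] at hy'
  induction hy' using Submodule.span_induction with
  | mem x hx =>
    have hx' : x ∈ S := hx
    rw [← Finset.prod_erase_mul S n hx', mul_smul, hs x hx', smul_zero]
  | zero => exact smul_zero _
  | add x z h1 h2 h3 h4 =>
    have e1 : x ∈ τ := hS ▸ h1
    have e2 : z ∈ τ := hS ▸ h2
    rw [smul_add, h3 e1, h4 e2, add_zero]
  | smul a x h1 h2 =>
    have e1 : x ∈ τ := hS ▸ h1
    rw [smul_comm, h2 e1, smul_zero]

/-- no nonzero element of a finitely generated abelian group is divisible by everything -/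
lemma divisible_zero (Q : Type*) [AddCommGroup Q] [Module.Finite ℤ Q] (x : Q)
    (h : ∀ q : ℕ, 0 < q → ∃ y : Q, x = (q : ℤ) • y) : x = 0 := by
  obtain ⟨C, hC, hC'⟩ := exp_bound Q
  have h1 : x ∈ (⨅ i : ℕ, (Ideal.span {(2 : ℤ)}) ^ i • (⊤ : Submodule ℤ Q)) := by
    rw [Submodule.mem_iInf]
    intro i
    obtain ⟨y, hy⟩ := h (2 ^ i) (by positivity)
    rw [hy]
    apply Submodule.smul_mem_smul _ Submodule.mem_top
    rw [Ideal.span_singleton_pow]
    apply Ideal.subset_span
    simp
  obtain ⟨r, hr⟩ := (Ideal.mem_iInf_smul_pow_eq_bot_iff _ x).1 h1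
  have hr2 : (r : ℤ) ∈ Ideal.span {(2 : ℤ)} := r.2
  rw [Ideal.mem_span_singleton] at hr2
  have hne : 1 - (r : ℤ) ≠ 0 := by omega
  have hx : (1 - (r : ℤ)) • x = 0 := by
    rw [sub_smul, one_smul, sub_eq_zero]
    exact hr.symm
  obtain ⟨y, hy⟩ := h C.natAbs (Int.natAbs_pos.2 hC)
  have hy0 : C • y = 0 := by
    apply hC'
    refine ⟨(1 - (r : ℤ)) * (C.natAbs : ℤ), mul_ne_zero hne (by simpa using hC), ?_⟩
    rw [mul_smul, ← hy, hx]
  rw [hy]
  rcases Int.natAbs_eq C with h2 | h2
  · rw [← h2, hy0]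
  · have : (C.natAbs : ℤ) = -C := by omega
    rw [this, neg_smul, hy0, neg_zero]

variable {A : Type*} [AddCommGroup A]

lemma fg_of_le {N M : Submodule ℤ A} (hN : N.FG) (h : M ≤ N) : M.FG := by
  have : IsNoetherian ℤ N := isNoetherian_of_fg_of_noetherian N hN
  have h1 : (M.comap N.subtype).FG := IsNoetherian.noetherian _
  have h2 : (M.comap N.subtype).map N.subtype = M := by
    rw [Submodule.map_comap_subtype]
    exact inf_eq_right.2 h
  rw [← h2]
  exact h1.map _

/-- exponent of the torsion of `E / D` -/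
lemma exp_rel {E : Submodule ℤ A} (hE : E.FG) (D : Submodule ℤ A) :
    ∃ C : ℤ, C ≠ 0 ∧ ∀ e ∈ E, (∃ n : ℤ, n ≠ 0 ∧ n • e ∈ D) → C • e ∈ D := by
  have : Module.Finite ℤ E := Module.Finite.iff_fg.2 hE
  obtain ⟨C, hC, hC'⟩ := exp_bound (E ⧸ D.comap E.subtype)
  refine ⟨C, hC, fun e he hn => ?_⟩
  obtain ⟨n, hn, hne⟩ := hn
  have h1 := hC' (Submodule.Quotient.mk ⟨e, he⟩) ⟨n, hn, by
    rw [← Submodule.Quotient.mk_smul, Submodule.Quotient.mk_eq_zero]
    exact hne⟩
  rw [← Submodule.Quotient.mk_smul, Submodule.Quotient.mk_eq_zero] at h1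
  exact h1

lemma resid {M : Submodule ℤ A} (hM : M.FG) (N : Submodule ℤ A) {u : A} (hu : u ∈ M)
    (h : ∀ q : ℕ, 0 < q → ∃ n ∈ N, ∃ m ∈ M, u = n + (q : ℤ) • m) : u ∈ N := by
  have : Module.Finite ℤ M := Module.Finite.iff_fg.2 hM
  have h1 : (Submodule.Quotient.mk ⟨u, hu⟩ : M ⧸ N.comap M.subtype) = 0 := by
    apply divisible_zero
    intro q hq
    obtain ⟨n, hn, m, hm, e⟩ := h q hq
    refine ⟨Submodule.Quotient.mk ⟨m, hm⟩, ?_⟩
    rw [← Submodule.Quotient.mk_smul, Submodule.Quotient.eq]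
    change u - (q : ℤ) • m ∈ N
    rw [e, add_sub_cancel_right]
    exact hn
  rw [Submodule.Quotient.mk_eq_zero] at h1
  exact h1

end Exponent

section Orb

variable {G A : Type*} [Group G] [AddCommGroup A] {T : G →* Module.End ℤ A}

/-- `ℤ[y, y⁻¹] N` -/
def orb (T : G →* Module.End ℤ A) (y : G) (N : Submodule ℤ A) : Submodule ℤ A :=
  Submodule.span ℤ {x | ∃ k : ℤ, ∃ n ∈ N, x = T (y ^ k) n}

lemma le_orb (y : G) (N : Submodule ℤ A) : N ≤ orb T y N := by
  intro n hn
  exact Submodule.subset_span ⟨0, n, hn, by simp⟩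

lemma orb_zpow {y : G} {N : Submodule ℤ A} (k : ℤ) {x : A} (hx : x ∈ orb T y N) :
    T (y ^ k) x ∈ orb T y N := by
  induction hx using Submodule.span_induction with
  | mem x hx =>
    obtain ⟨l, n, hn, rfl⟩ := hx
    refine Submodule.subset_span ⟨k + l, n, hn, ?_⟩
    rw [zpow_add, map_mul, Module.End.mul_apply]
  | zero => rw [map_zero]; exact Submodule.zero_mem _
  | add x z _ _ h1 h2 => rw [map_add]; exact Submodule.add_mem _ h1 h2
  | smul a x _ h1 => rw [map_smul]; exact Submodule.smul_mem _ _ h1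

lemma orb_le {y : G} {N M : Submodule ℤ A} (hNM : N ≤ M)
    (hM : ∀ k : ℤ, ∀ m ∈ M, T (y ^ k) m ∈ M) : orb T y N ≤ M := by
  unfold orb
  rw [Submodule.span_le]
  rintro _ ⟨k, n, hn, rfl⟩
  exact hM k n (hNM hn)

/-- operators commuting with `T y` preserve `orb` -/
lemma orb_stable {y : G} {N : Submodule ℤ A} {r : Module.End ℤ A}
    (hr : ∀ k : ℤ, Commute r (T (y ^ k))) (hrN : ∀ n ∈ N, r n ∈ N) {x : A} (hx : x ∈ orb T y N) :
    r x ∈ orb T y N := by
  induction hx using Submodule.span_induction with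
  | mem x hx =>
    obtain ⟨l, n, hn, rfl⟩ := hx
    refine Submodule.subset_span ⟨l, r n, hrN n hn, ?_⟩
    exact LinearMap.congr_fun (hr l).eq n
  | zero => rw [map_zero]; exact Submodule.zero_mem _
  | add x z _ _ h1 h2 => rw [map_add]; exact Submodule.add_mem _ h1 h2
  | smul a x _ h1 => rw [map_smul]; exact Submodule.smul_mem _ _ h1

lemma pow_zero_of_le' {u : Module.End ℤ A} {n m : ℕ} {v : A} (h : (u ^ n) v = 0) (hnm : n ≤ m) :
    (u ^ m) v = 0 := by
  obtain ⟨k, rfl⟩ := Nat.exists_eq_add_of_le hnm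
  rw [add_comm, pow_add, Module.End.mul_apply, h, map_zero]

/-- uniform nilpotency on a finitely generated submodule -/
lemma Act.nil_fg (hT : Act T) (g : G) {M : Submodule ℤ A} (hM : M.FG) :
    ∃ c : ℕ, 0 < c ∧ ∀ m ∈ M, ((T g - 1) ^ c) m = 0 := by
  obtain ⟨S, hS⟩ := hM
  choose n hn using hT.lu g
  refine ⟨S.sup n + 1, Nat.succ_pos _, fun m hm => ?_⟩
  have h1 : M ≤ LinearMap.ker ((T g - 1) ^ (S.sup n + 1)) := by
    rw [← hS, Submodule.span_le]
    intro s hs
    exact pow_zero_of_le' (hn s) ((Finset.le_sup (f := n) hs).trans (Nat.le_succ _))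
  exact h1 hm

lemma commute_zpow (hT : Act T) (g h : G) : Commute (T g) (T h) := hT.comm g h

lemma Act.nil_orb (hT : Act T) (g : G) {M : Submodule ℤ A} {c : ℕ}
    (hc : ∀ m ∈ M, ((T g - 1) ^ c) m = 0) {x : A} (hx : x ∈ orb T g M) :
    ((T g - 1) ^ c) x = 0 := by
  have h1 : orb T g M ≤ LinearMap.ker ((T g - 1) ^ c) := by
    apply orb_le
    · intro m hm; exact hc m hm
    · intro k m hm
      rw [LinearMap.mem_ker] at hm ⊢
      have hcomm : Commute ((T g - 1) ^ c) (T (g ^ k)) :=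
        ((commute_zpow hT g (g ^ k)).sub_left (Commute.one_left _)).pow_left c
      rw [← Module.End.mul_apply, hcomm.eq, Module.End.mul_apply, hm, map_zero]
  exact h1 hx

lemma Act.orb_fg (hT : Act T) (g : G) {M : Submodule ℤ A} (hM : M.FG) : (orb T g M).FG := by
  classical
  obtain ⟨c, hc0, hc⟩ := hT.nil_fg g hM
  set u := T g - 1 with hu
  let N : Submodule ℤ A := (range c).sup (fun i => M.map (u ^ i))
  have hN : N.FG := by
    have : ∀ s : Finset ℕ, (s.sup (fun i => M.map (u ^ i)) : Submodule ℤ A).FG := by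
      intro s
      induction s using Finset.induction_on with
      | empty => simpa using Submodule.fg_bot
      | insert a s _ ih => rw [Finset.sup_insert]; exact (hM.map _).sup ih
    exact this _
  have hle : ∀ i < c, M.map (u ^ i) ≤ N := fun i hi =>
    Finset.le_sup (f := fun i => M.map (u ^ i)) (mem_range.2 hi)
  have hMN : M ≤ N := by
    intro m hm
    exact hle 0 hc0 ⟨m, hm, by simp⟩
  have hker : ∀ x ∈ N, (u ^ c) x = 0 := by
    have : N ≤ LinearMap.ker (u ^ c) := by
      apply Finset.sup_le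
      rintro i _ _ ⟨m, hm, rfl⟩
      rw [LinearMap.mem_ker, ← Module.End.mul_apply, ← pow_add]
      exact pow_zero_of_le' (hc m hm) (Nat.le_add_right _ _)
    exact fun x hx => this hx
  have hstab : ∀ x ∈ N, u x ∈ N := by
    have : N ≤ N.comap u := by
      apply Finset.sup_le
      rintro i hi _ ⟨m, hm, rfl⟩
      rw [Submodule.mem_comap, ← Module.End.mul_apply, ← pow_succ']
      rcases Nat.lt_or_ge (i + 1) c with h | h
      · exact hle _ h ⟨m, hm, rfl⟩
      · rw [pow_zero_of_le' (hc m hm) h]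
        exact N.zero_mem
    exact fun x hx => this hx
  have hTg : T g = u + 1 := by rw [hu]; abel
  have hpos : ∀ x ∈ N, T g x ∈ N := by
    intro x hx
    rw [hTg, LinearMap.add_apply]
    exact N.add_mem (hstab x hx) hx
  have hinv : ∀ x ∈ N, T g⁻¹ x ∈ N := by
    intro x hx
    let y := (∑ i ∈ range c, (-u) ^ i) x
    have hy : y ∈ N := by
      have : ∀ i : ℕ, ((-u) ^ i) x ∈ N := by
        intro i
        induction i with
        | zero => simpa using hx
        | succ i ih =>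
          rw [pow_succ', Module.End.mul_apply, LinearMap.neg_apply]
          exact N.neg_mem (hstab _ ih)
      change (∑ i ∈ range c, (-u) ^ i) x ∈ N
      rw [LinearMap.sum_apply]
      exact N.sum_mem fun i _ => this i
    have h1 : T g y = x := by
      have h2 : (∑ i ∈ range c, (-u) ^ i) * (-u - 1) = (-u) ^ c - 1 := geom_sum_mul _ _
      have h3 : Commute (T g) (∑ i ∈ range c, (-u) ^ i) := by
        apply Commute.sum_right
        intro i _
        apply Commute.pow_right
        apply Commute.neg_right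
        rw [hTg]
        exact (Commute.refl u).add_left (Commute.one_left _)
      have h4 : T g * (∑ i ∈ range c, (-u) ^ i) = 1 - (-u) ^ c := by
        rw [h3.eq, hTg]
        have : (u + 1 : Module.End ℤ A) = -(-u - 1) := by abel
        rw [this, mul_neg, h2]
        abel
      have h5 := LinearMap.congr_fun h4 x
      rw [Module.End.mul_apply, LinearMap.sub_apply] at h5
      have h6 : ((-u) ^ c) x = 0 := by
        rw [neg_pow, Module.End.mul_apply, hker x hx, map_zero]
      rw [h6, sub_zero] at h5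
      exact h5
    have h2 : T g⁻¹ x = y := by
      rw [← h1, ← Module.End.mul_apply, ← map_mul, inv_mul_cancel, map_one]
      rfl
    rw [h2]
    exact hy
  have hz : ∀ k : ℤ, ∀ m ∈ N, T (g ^ k) m ∈ N := by
    intro k
    induction k using Int.induction_on with
    | zero => intro m hm; simpa using hm
    | succ i ih =>
      intro m hm
      rw [zpow_add_one, map_mul, Module.End.mul_apply]
      exact ih _ (hpos m hm)
    | pred i ih =>
      intro m hm
      rw [zpow_sub_one, map_mul, Module.End.mul_apply]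
      exact ih _ (hinv m hm)
  exact fg_of_le hN (orb_le hMN hz)

/-- the stabiliser of a submodule -/
def stab (T : G →* Module.End ℤ A) (M : Submodule ℤ A) : Subgroup G where
  carrier := {x | (∀ m ∈ M, T x m ∈ M) ∧ (∀ m ∈ M, T x⁻¹ m ∈ M)}
  mul_mem' := by
    rintro a b ⟨h1, h2⟩ ⟨h3, h4⟩
    refine ⟨fun m hm => ?_, fun m hm => ?_⟩
    · rw [map_mul, Module.End.mul_apply]; exact h1 _ (h3 _ hm)
    · rw [mul_inv_rev, map_mul, Module.End.mul_apply]; exact h4 _ (h2 _ hm)
  one_mem' := by simp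
  inv_mem' := by
    rintro a ⟨h1, h2⟩
    exact ⟨h2, by simpa using h1⟩

lemma Act.exists_inv (hT : Act T) {M : Submodule ℤ A} (hM : M.FG) {K : Subgroup G} (hK : K.FG) :
    ∃ M' : Submodule ℤ A, M ≤ M' ∧ M'.FG ∧ ∀ g ∈ K, ∀ m ∈ M', T g m ∈ M' := by
  classical
  obtain ⟨S, rfl⟩ := hK
  suffices h : ∀ S : Finset G, ∃ M' : Submodule ℤ A, M ≤ M' ∧ M'.FG ∧
      Subgroup.closure (S : Set G) ≤ stab T M' by
    obtain ⟨M', h1, h2, h3⟩ := h S
    exact ⟨M', h1, h2, fun g hg => (h3 hg).1⟩
  intro S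
  induction S using Finset.induction_on with
  | empty => exact ⟨M, le_rfl, hM, by simp⟩
  | insert g S _ ih =>
    obtain ⟨M', h1, h2, h3⟩ := ih
    refine ⟨orb T g M', h1.trans (le_orb _ _), hT.orb_fg g h2, ?_⟩
    rw [Subgroup.closure_le]
    intro x hx
    rw [Finset.coe_insert, Set.mem_insert_iff] at hx
    rcases hx with rfl | hx
    · refine ⟨fun m hm => ?_, fun m hm => ?_⟩
      · have := orb_zpow (T := T) 1 hm
        rwa [zpow_one] at this
      · have := orb_zpow (T := T) (-1) hm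
        rwa [zpow_neg_one] at this
    · have h4 : x ∈ stab T M' := h3 (Subgroup.subset_closure hx)
      exact ⟨fun m hm => orb_stable (fun k => hT.comm _ _) h4.1 hm,
        fun m hm => orb_stable (fun k => hT.comm _ _) h4.2 hm⟩

end Orb

end Pool.Agent.H63.NG
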