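import Pool.Agent.H63.NG.Basic

/-! Free and generic elements over finitely generated submodules. -/

set_option autoImplicit false

open Finset Module TensorProduct

namespace Pool.Agent.H63.NG

variable {G A : Type*} [Group G] [AddCommGroup A] {T : G →* Module.End ℤ A}

/-- rational span of a submodule -/
noncomputable def MV (M : Submodule ℤ A) : Submodule ℚ (VV A) := Submodule.span ℚ (jj '' (M : Set A))

lemma mem_MV {M : Submodule ℤ A} {m : A} (hm : m ∈ M) : jj m ∈ MV M :=
  Submodule.subset_span ⟨m, hm, rfl⟩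

lemma finite_MV {M : Submodule ℤ A} (hM : M.FG) : FiniteDimensional ℚ (MV M) := by
  classical
  obtain ⟨S, hS⟩ := hM
  have h1 : MV M ≤ Submodule.span ℚ ((S.image jj : Finset (VV A)) : Set (VV A)) := by
    unfold MV
    rw [Submodule.span_le]
    rintro _ ⟨m, hm, rfl⟩
    rw [SetLike.mem_coe, ← hS] at hm
    rw [SetLike.mem_coe]
    induction hm using Submodule.span_induction with
    | mem x hx => exact Submodule.subset_span (by simpa using ⟨x, hx, rfl⟩)
    | zero => rw [jj_zero]; exact Submodule.zero_mem _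
    | add x y _ _ h1 h2 => rw [jj_add]; exact Submodule.add_mem _ h1 h2
    | smul n x _ h1 => rw [jj_zsmul]; exact Submodule.smul_mem _ _ h1
  have : FiniteDimensional ℚ (Submodule.span ℚ ((S.image jj : Finset (VV A)) : Set (VV A))) :=
    FiniteDimensional.span_finset ℚ _
  exact Submodule.finiteDimensional_of_le h1

/-- an element `g` whose logarithm moves `M` off itself -/
lemma Act.free1 (hT : Act T) {M : Submodule ℤ A} (hM : M.FG) :
    ∃ g, ∀ m ∈ M, ∀ (c : ℕ) (n : ℤ), ((T g - 1) ^ c) m = 0 → n ≠ 0 →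
      n • Wop (T g - 1) c m ∈ M → m = 0 := by
  have := finite_MV hM
  obtain ⟨g, hg⟩ := hT.fam.free (MV M)
  refine ⟨g, fun m hm c n hc hn hW => ?_⟩
  apply jj_inj hT.tf
  rw [jj_zero]
  apply hg _ (mem_MV hm)
  have h1 : (n : ℚ) • ((c.factorial : ℚ) • hT.X g (jj m)) ∈ MV M := by
    rw [← hT.jj_Wop g c hc, ← jj_zsmul]
    exact mem_MV hW
  have hn' : (n : ℚ) ≠ 0 := by exact_mod_cast hn
  have hc' : (c.factorial : ℚ) ≠ 0 := by exact_mod_cast c.factorial_ne_zero
  rw [smul_smul] at h1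
  exact (Submodule.smul_mem_iff _ (mul_ne_zero hn' hc')).1 h1

/-- generic elements over `M` -/
lemma Act.generic (hT : Act T) {M : Submodule ℤ A} (hM : M.FG) :
    ∃ v : Bool → A, ∀ r : Bool → Module.End ℤ A, (∀ b g, Commute (r b) (T g)) →
      (∀ b, ∀ m ∈ M, r b m ∈ M) → ∑ b, r b (v b) ∈ M →
      (∀ b, ∀ m ∈ M, r b m = 0) ∧ ∑ b, r b (v b) = 0 := by
  classical
  have := finite_MV hM
  obtain ⟨S, hS⟩ := hM
  obtain ⟨g, hg⟩ := hT.fam.free_multi (MV M) (S ×ˢ (Finset.univ : Finset Bool))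
  have hSM : ∀ m ∈ S, m ∈ M := fun m hm => hS ▸ Submodule.subset_span hm
  let w : Bool → VV A := fun b => ∑ m ∈ S, hT.X (g (m, b)) (jj m)
  choose n hn v hv using fun b => jj_surj (w b)
  refine ⟨v, fun r hr hrM hsum => ?_⟩
  have e1 : ∀ b, jj (r b (v b)) = ∑ m ∈ S, hT.X (g (m, b)) (jj (n b • r b m)) := by
    intro b
    rw [← BB_jj, ← hv, map_smul]
    simp only [w]
    rw [map_sum, Finset.smul_sum]
    refine Finset.sum_congr rfl fun m _ => ?_
    have h1 : BB (r b) (hT.X (g (m, b)) (jj m)) = hT.X (g (m, b)) (BB (r b) (jj m)) :=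
      LinearMap.congr_fun (hT.commXB (hr b) (g (m, b))).eq (jj m)
    rw [h1, BB_jj, jj_zsmul, map_smul]
  have e2 : ∑ p ∈ S ×ˢ (Finset.univ : Finset Bool),
      hT.X (g p) (jj (n p.2 • r p.2 p.1)) ∈ MV M := by
    have : ∑ p ∈ S ×ˢ (Finset.univ : Finset Bool), hT.X (g p) (jj (n p.2 • r p.2 p.1)) =
        jj (∑ b, r b (v b)) := by
      rw [jj_sum, Finset.sum_product_right]
      exact Finset.sum_congr rfl fun b _ => (e1 b).symm
    rw [this]
    exact mem_MV hsum
  have e3 := hg (fun p => jj (n p.2 • r p.2 p.1)) (fun p hp => by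
    apply mem_MV
    exact M.smul_mem _ (hrM _ _ (hSM _ (Finset.mem_product.1 hp).1))) e2
  have e4 : ∀ b, ∀ m ∈ S, r b m = 0 := by
    intro b m hm
    have h1 := e3 (m, b) (Finset.mem_product.2 ⟨hm, Finset.mem_univ _⟩)
    have h2 : n b • r b m = 0 := by
      apply jj_inj hT.tf
      rw [jj_zero]
      exact h1
    exact hT.tf _ _ (hn b) h2
  have e5 : ∀ b, ∀ m ∈ M, r b m = 0 := by
    intro b m hm
    have : M ≤ LinearMap.ker (r b) := by
      rw [← hS, Submodule.span_le]
      intro x hx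
      exact e4 b x hx
    exact this hm
  refine ⟨e5, ?_⟩
  apply Finset.sum_eq_zero
  intro b _
  apply jj_inj hT.tf
  rw [e1, jj_zero]
  apply Finset.sum_eq_zero
  intro m hm
  rw [e4 b m hm, smul_zero, jj_zero, map_zero]

end Pool.Agent.H63.NG
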