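import Pool.Agent.H63.NG.KLem

/-! The group theoretic part for the metabelian case of MP_5de1e7_al. -/

set_option autoImplicit false

open Finset Module

namespace Pool.Agent.H63.NG

/-- in a group with the normalizer condition every descending play is lost -/
lemma nlemma {G : Type*} [Group G] (hG : NormalizerCondition G) (K : Subgroup G) (a h : ℕ → G)
    (hh : ∀ n, h n ∈ K) (ha : ∀ n, a (n + 1) = h n * a n * (h n)⁻¹ * (a n)⁻¹) :
    ∃ n, a n ∈ K := by
  by_contra hc
  push Not at hc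
  -- a maximal subgroup above `K` avoiding all `a n`
  obtain ⟨L, hKL, hL⟩ := zorn_le_nonempty₀ {L : Subgroup G | ∀ n, a n ∉ L} (by
    intro c hc hchain L₀ hL₀
    refine ⟨sSup c, ?_, fun s hs => le_sSup hs⟩
    intro n hn
    rw [Subgroup.mem_sSup_of_directedOn ⟨L₀, hL₀⟩ hchain.directedOn] at hn
    obtain ⟨s, hs, hn⟩ := hn
    exact hc hs n hn) K hc
  have hLtop : L < ⊤ := by
    rw [lt_top_iff_ne_top]
    intro h
    exact hL.prop 0 (h ▸ Subgroup.mem_top _)
  have hlt := hG L hLtop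
  have hnot : ¬ (∀ n, a n ∉ Subgroup.normalizer (L : Set G)) := by
    intro h
    exact absurd (hL.le_of_ge h hlt.le) (not_le_of_gt hlt)
  push Not at hnot
  obtain ⟨n, hn⟩ := hnot
  apply hL.prop (n + 1)
  rw [ha]
  have h1 : h n ∈ L := hKL (hh n)
  have h2 : a n * (h n)⁻¹ * (a n)⁻¹ ∈ L := (Subgroup.mem_normalizer_iff.1 hn _).1 (L.inv_mem h1)
  have : h n * a n * (h n)⁻¹ * (a n)⁻¹ = h n * (a n * (h n)⁻¹ * (a n)⁻¹) := by group
  rw [this]
  exact L.mul_mem h1 h2

variable {G A : Type*} [Group G] [AddCommGroup A]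

/-- `A` embedded as a normal subgroup containing all commutators -/
structure Emb (T : G →* Module.End ℤ A) where
  ι : A → G
  add : ∀ a b, ι (a + b) = ι a * ι b
  inj : Function.Injective ι
  conj : ∀ g a, g * ι a * g⁻¹ = ι (T g a)
  c : G → G → A
  hc : ∀ g h, ι (c g h) = g * h * g⁻¹ * h⁻¹

variable {T : G →* Module.End ℤ A}

lemma Emb.zero (E : Emb T) : E.ι 0 = 1 := by
  have := E.add 0 0
  rw [add_zero] at this
  exact (mul_eq_left.1 this.symm)

lemma Emb.neg (E : Emb T) (a : A) : E.ι (-a) = (E.ι a)⁻¹ := by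
  rw [eq_inv_iff_mul_eq_one, ← E.add, neg_add_cancel, E.zero]

lemma Emb.sub (E : Emb T) (a b : A) : E.ι (a - b) = E.ι a * (E.ι b)⁻¹ := by
  rw [sub_eq_add_neg, E.add, E.neg]

lemma Emb.mul_ι (E : Emb T) (g : G) (a : A) : g * E.ι a = E.ι (T g a) * g := by
  rw [← E.conj]; group

lemma Emb.T_ι (E : Emb T) (a : A) : T (E.ι a) = 1 := by
  apply LinearMap.ext
  intro b
  apply E.inj
  rw [← E.conj, ← E.add, ← E.neg, ← E.add, Module.End.one_apply]
  congr 1
  abel

lemma Emb.comm (E : Emb T) (g h : G) : T g * T h = T h * T g := by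
  have : g * h = E.ι (E.c g h) * (h * g) := by rw [E.hc]; group
  rw [← map_mul, this, map_mul, E.T_ι, one_mul, map_mul]

/-- intersection of a subgroup with `A` -/
def Emb.KA (E : Emb T) (K : Subgroup G) : Submodule ℤ A :=
  AddSubgroup.toIntSubmodule
    { carrier := {a | E.ι a ∈ K}
      add_mem' := by
        intro a b ha hb
        change E.ι (a + b) ∈ K
        rw [E.add]; exact K.mul_mem ha hb
      zero_mem' := by
        change E.ι 0 ∈ K
        rw [E.zero]; exact K.one_mem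
      neg_mem' := by
        intro a ha
        change E.ι (-a) ∈ K
        rw [E.neg]; exact K.inv_mem ha }

lemma Emb.mem_KA (E : Emb T) {K : Subgroup G} {a : A} : a ∈ E.KA K ↔ E.ι a ∈ K := Iff.rfl

lemma Emb.KA_inv (E : Emb T) {K : Subgroup G} {g : G} (hg : g ∈ K) {a : A} (ha : a ∈ E.KA K) :
    T g a ∈ E.KA K := by
  rw [E.mem_KA] at ha ⊢
  rw [← E.conj]
  exact K.mul_mem (K.mul_mem hg ha) (K.inv_mem hg)

lemma Emb.c_mem (E : Emb T) {K : Subgroup G} {g h : G} (hg : g ∈ K) (hh : h ∈ K) :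
    E.c g h ∈ E.KA K := by
  rw [E.mem_KA, E.hc]
  exact K.mul_mem (K.mul_mem (K.mul_mem hg hh) (K.inv_mem hg)) (K.inv_mem hh)

lemma Emb.c_mul_left (E : Emb T) (g g' h : G) : E.c (g * g') h = T g (E.c g' h) + E.c g h := by
  apply E.inj
  rw [E.add, E.hc, ← E.conj, E.hc, E.hc]; group

lemma Emb.c_mul_right (E : Emb T) (g h h' : G) : E.c g (h * h') = E.c g h + T h (E.c g h') := by
  apply E.inj
  rw [E.add, E.hc, ← E.conj, E.hc, E.hc]; group

lemma Emb.c_one_left (E : Emb T) (h : G) : E.c 1 h = 0 := by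
  apply E.inj
  rw [E.hc, E.zero]; group

lemma Emb.c_one_right (E : Emb T) (g : G) : E.c g 1 = 0 := by
  apply E.inj
  rw [E.hc, E.zero]; group

lemma Emb.c_inv_left (E : Emb T) (g h : G) : E.c g⁻¹ h = - T g⁻¹ (E.c g h) := by
  have := E.c_mul_left g⁻¹ g h
  rw [inv_mul_cancel, E.c_one_left] at this
  exact (neg_eq_of_add_eq_zero_right this.symm).symm

lemma Emb.c_inv_right (E : Emb T) (g h : G) : E.c g h⁻¹ = - T h⁻¹ (E.c g h) := by
  have := E.c_mul_right g h⁻¹ h
  rw [inv_mul_cancel, E.c_one_right] at this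
  exact (eq_neg_of_add_eq_zero_left this.symm)

/-- commutators of a subgroup land in an invariant submodule as soon as those of generators do -/
lemma Emb.c_closure (E : Emb T) {S : Set G} {M : Submodule ℤ A}
    (hM : ∀ g ∈ Subgroup.closure S, ∀ m ∈ M, T g m ∈ M) (hS : ∀ s ∈ S, ∀ t ∈ S, E.c s t ∈ M) :
    ∀ g ∈ Subgroup.closure S, ∀ h ∈ Subgroup.closure S, E.c g h ∈ M := by
  have h1 : ∀ g ∈ Subgroup.closure S, ∀ t ∈ S, E.c g t ∈ M := by
    intro g hg t ht
    induction hg using Subgroup.closure_induction with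
    | mem x hx => exact hS x hx t ht
    | one => rw [E.c_one_left]; exact M.zero_mem
    | mul x y hx hy h1 h2 => rw [E.c_mul_left]; exact M.add_mem (hM x hx _ h2) h1
    | inv x hx h1 => rw [E.c_inv_left]; exact M.neg_mem (hM _ (Subgroup.inv_mem _ hx) _ h1)
  intro g hg h hh
  induction hh using Subgroup.closure_induction with
  | mem x hx => exact h1 g hg x hx
  | one => rw [E.c_one_right]; exact M.zero_mem
  | mul x y hx hy h1 h2 => rw [E.c_mul_right]; exact M.add_mem h1 (hM x hx _ h2)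
  | inv x hx h1 => rw [E.c_inv_right]; exact M.neg_mem (hM _ (Subgroup.inv_mem _ hx) _ h1)

/-- `K ∩ A` is finitely generated -/
lemma Emb.KA_fg (E : Emb T) (hT : Act T) {K : Subgroup G} (hK : K.FG) : (E.KA K).FG := by
  classical
  obtain ⟨S, rfl⟩ := id hK
  set K := Subgroup.closure (S : Set G) with hKdef
  -- finitely generated invariant submodule with all commutators
  obtain ⟨M', hM1, hM2, hM3⟩ := hT.exists_inv
    (M := Submodule.span ℤ (((S ×ˢ S).image fun p => E.c p.1 p.2 : Finset A) : Set A))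
    ⟨_, rfl⟩ hK
  let M : Submodule ℤ A := M' ⊓ E.KA K
  have hMfg : M.FG := fg_of_le hM2 inf_le_left
  have hMinv : ∀ g ∈ K, ∀ m ∈ M, T g m ∈ M := fun g hg m hm =>
    ⟨hM3 g hg m hm.1, E.KA_inv hg hm.2⟩
  have hMc : ∀ g ∈ K, ∀ h ∈ K, E.c g h ∈ M := by
    apply E.c_closure hMinv
    intro s hs t ht
    refine ⟨hM1 (Submodule.subset_span ?_), E.c_mem (Subgroup.subset_closure hs)
      (Subgroup.subset_closure ht)⟩
    rw [Finset.coe_image]
    exact ⟨(s, t), by simpa using ⟨hs, ht⟩, rfl⟩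
  -- the quotient group
  let N : Subgroup K :=
    { carrier := {k | ∃ m ∈ M, (k : G) = E.ι m}
      mul_mem' := by
        rintro a b ⟨m, hm, ha⟩ ⟨m', hm', hb⟩
        exact ⟨m + m', M.add_mem hm hm', by rw [Subgroup.coe_mul, ha, hb, E.add]⟩
      one_mem' := ⟨0, M.zero_mem, by rw [E.zero]; rfl⟩
      inv_mem' := by
        rintro a ⟨m, hm, ha⟩
        exact ⟨-m, M.neg_mem hm, by rw [Subgroup.coe_inv, ha, E.neg]⟩ }
  have hN : N.Normal := by
    constructor
    rintro n ⟨m, hm, hn⟩ g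
    refine ⟨T g m, hMinv g g.2 m hm, ?_⟩
    rw [Subgroup.coe_mul, Subgroup.coe_mul, Subgroup.coe_inv, hn, E.conj]
  have hcomm : ∀ x y : K ⧸ N, x * y = y * x := by
    intro x y
    obtain ⟨x, rfl⟩ := QuotientGroup.mk_surjective x
    obtain ⟨y, rfl⟩ := QuotientGroup.mk_surjective y
    rw [← QuotientGroup.mk_mul, ← QuotientGroup.mk_mul, QuotientGroup.eq]
    refine ⟨E.c (y : G)⁻¹ (x : G)⁻¹, hMc _ (K.inv_mem y.2) _ (K.inv_mem x.2), ?_⟩
    rw [E.hc]
    push_cast
    group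
  let _ : CommGroup (K ⧸ N) := { (inferInstance : Group (K ⧸ N)) with mul_comm := hcomm }
  have hfg1 : Group.FG K := (Group.fg_iff_subgroup_fg K).2 hK
  have hfg2 : Group.FG (K ⧸ N) := inferInstance
  have hfg3 : AddGroup.FG (Additive (K ⧸ N)) := GroupFG.iff_add_fg.1 hfg2
  have hfg4 : Module.Finite ℤ (Additive (K ⧸ N)) := Module.Finite.iff_addGroup_fg.2 hfg3
  let ψ : E.KA K →+ Additive (K ⧸ N) :=
    { toFun := fun a => Additive.ofMul (QuotientGroup.mk ⟨E.ι a, a.2⟩)
      map_zero' := by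
        have : (⟨E.ι ((0 : E.KA K) : A), (0 : E.KA K).2⟩ : K) = 1 := Subtype.ext E.zero
        rw [this]; rfl
      map_add' := fun a b => by
        have : (⟨E.ι ((a + b : E.KA K) : A), (a + b).2⟩ : K) = ⟨E.ι a, a.2⟩ * ⟨E.ι b, b.2⟩ :=
          Subtype.ext (E.add _ _)
        rw [this]; rfl }
  let ψ' : E.KA K →ₗ[ℤ] Additive (K ⧸ N) := ψ.toIntLinearMap
  have h1 : (Submodule.map ψ' ⊤).FG := IsNoetherian.noetherian _
  have h2 : (⊤ ⊓ LinearMap.ker ψ' : Submodule ℤ (E.KA K)).FG := by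
    rw [top_inf_eq]
    have h3 : (LinearMap.ker ψ').map (E.KA K).subtype ≤ M := by
      rintro _ ⟨a, ha, rfl⟩
      have h4 : (QuotientGroup.mk (⟨E.ι a, a.2⟩ : K) : K ⧸ N) = 1 := ha
      rw [QuotientGroup.eq_one_iff] at h4
      obtain ⟨m, hm, h5⟩ := h4
      have : (a : A) = m := E.inj h5
      change (a : A) ∈ M
      rw [this]; exact hm
    have h4 := fg_of_le hMfg h3
    exact Submodule.fg_of_fg_map_injective _ (Submodule.injective_subtype _) h4
  have h3 : (⊤ : Submodule ℤ (E.KA K)).FG := Submodule.fg_of_fg_map_of_fg_inf_ker ψ' h1 h2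
  rwa [Submodule.fg_top] at h3

end Pool.Agent.H63.NG
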