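import Pool.Agent.H63.NG.Fg

/-! Lemma K: high powers. -/

set_option autoImplicit false

open Finset Module

namespace Pool.Agent.H63.NG

lemma prod_mod (i : ℕ) (n : ℤ) :
    ∃ Q : ℤ, ∏ j ∈ range i, (n - ((j : ℤ) + 1)) = (-1) ^ i * (i.factorial : ℤ) + n * Q := by
  induction i with
  | zero => exact ⟨0, by simp⟩
  | succ i ih =>
    obtain ⟨Q, hQ⟩ := ih
    refine ⟨(-1) ^ i * (i.factorial : ℤ) + Q * (n - ((i : ℤ) + 1)), ?_⟩
    rw [prod_range_succ, hQ, Nat.factorial_succ]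
    push_cast
    ring

lemma desc_cast (n k : ℕ) : ((n.descFactorial k : ℕ) : ℤ) = ∏ j ∈ range k, ((n : ℤ) - j) := by
  rw [← descPochhammer_eval_eq_descFactorial ℤ n k, descPochhammer_eval_eq_prod_range]

lemma choose_mod (c k q : ℕ) (hk : 1 ≤ k) (hkc : k ≤ c) :
    ∃ κ : ℤ, ((Nat.choose (c.factorial * q) k : ℕ) : ℤ) = q * wc c k + (q : ℤ) ^ 2 * κ := by
  obtain ⟨i, rfl⟩ := Nat.exists_eq_add_of_le' hk
  obtain ⟨l, hl⟩ := Nat.factorial_dvd_factorial hkc
  obtain ⟨Q, hQ⟩ := prod_mod i ((c.factorial * q : ℕ) : ℤ)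
  have h1 := Nat.descFactorial_eq_factorial_mul_choose (c.factorial * q) (i + 1)
  have h2 : (((i + 1).factorial : ℕ) : ℤ) * ((Nat.choose (c.factorial * q) (i + 1) : ℕ) : ℤ) =
      ((c.factorial * q : ℕ) : ℤ) * ((-1) ^ i * (i.factorial : ℤ) +
        ((c.factorial * q : ℕ) : ℤ) * Q) := by
    rw [← hQ, ← Nat.cast_mul, ← h1, desc_cast, prod_range_succ']
    push_cast
    ring
  have hf : (((i + 1).factorial : ℕ) : ℤ) ≠ 0 := by exact_mod_cast (i + 1).factorial_ne_zero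
  have hw : wc c (i + 1) = (-1) ^ i * ((i.factorial : ℤ) * (l : ℤ)) := by
    unfold wc
    have : c.factorial / (i + 1) = i.factorial * l := by
      rw [hl, Nat.factorial_succ, mul_assoc, Nat.mul_div_cancel_left _ (Nat.succ_pos i)]
    rw [this]
    push_cast
    ring
  refine ⟨(l : ℤ) * (c.factorial : ℤ) * Q, ?_⟩
  apply mul_left_cancel₀ hf
  rw [h2, hw]
  have hl' : ((c.factorial : ℕ) : ℤ) = (((i + 1).factorial : ℕ) : ℤ) * (l : ℤ) := by
    exact_mod_cast hl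
  push_cast
  linear_combination ((q : ℤ) * (-1) ^ i * (i.factorial : ℤ) +
    (q : ℤ) ^ 2 * (c.factorial : ℤ) * Q) * hl'

variable {G A : Type*} [Group G] [AddCommGroup A] {T : G →* Module.End ℤ A}

lemma pow_apply_eq' {u : Module.End ℤ A} {n : ℕ} {v : A} (h : (u ^ n) v = 0) (t : ℕ) :
    ((u + 1) ^ t) v = ∑ k ∈ range n, (t.choose k : ℤ) • (u ^ k) v := by
  have h1 : (u + 1) ^ t = ∑ k ∈ range (t + 1), (t.choose k : ℤ) • u ^ k := by
    rw [(Commute.one_right u).add_pow]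
    refine Finset.sum_congr rfl fun k _ => ?_
    rw [one_pow, mul_one, ← Nat.cast_comm, ← nsmul_eq_mul, natCast_zsmul]
  rw [h1, LinearMap.sum_apply]
  have h2 : ∑ k ∈ range (t + 1), ((t.choose k : ℤ) • u ^ k) v =
      ∑ k ∈ range (max n (t + 1)), (t.choose k : ℤ) • (u ^ k) v := by
    rw [← Finset.sum_subset (Finset.range_subset_range.2 (le_max_right n (t + 1)))]
    · rfl
    · intro k _ hk
      rw [mem_range, not_lt] at hk
      rw [Nat.choose_eq_zero_of_lt (by omega), Nat.cast_zero, zero_smul]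
  rw [h2]
  symm
  apply Finset.sum_subset (Finset.range_subset_range.2 (le_max_left n (t + 1)))
  intro k _ hk
  rw [mem_range, not_lt] at hk
  rw [pow_zero_of_le' h hk, smul_zero]

/-- Lemma K -/
lemma Act.lemK (hT : Act T) (g : G) {M N : Submodule ℤ A} (hM : M.FG) (hN : N ≤ M) {u₀ : A}
    (hu₀ : u₀ ∈ M) {c : ℕ} (hc0 : 0 < c) (hc : ∀ m ∈ M, ((T g - 1) ^ c) m = 0)
    (free : ∀ m ∈ M, ∀ n : ℤ, n ≠ 0 → n • Wop (T g - 1) c m ∈ M → m = 0)
    (hyp : ∀ q : ℕ, 0 < q → (T (g ^ (c.factorial * q)) - 1) u₀ ∈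
      orb T (g ^ (c.factorial * q)) N) : u₀ ∈ N := by
  classical
  set u := T g - 1 with hu
  set W := Wop u c with hW
  set E := orb T g M with hE
  have hEfg : E.FG := hT.orb_fg g hM
  have hcE : ∀ x ∈ E, (u ^ c) x = 0 := fun x hx => hT.nil_orb g hc hx
  have hME : M ≤ E := le_orb _ _
  have hEz : ∀ (k : ℤ), ∀ x ∈ E, T (g ^ k) x ∈ E := fun k x hx => orb_zpow k hx
  have hEn : ∀ (k : ℕ), ∀ x ∈ E, T (g ^ k) x ∈ E := fun k x hx => by
    have := hEz k x hx
    rwa [zpow_natCast] at this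
  have hEu : ∀ x ∈ E, u x ∈ E := fun x hx => by
    rw [hu, LinearMap.sub_apply]
    have := hEn 1 x hx
    rw [pow_one] at this
    exact E.sub_mem this hx
  have hEup : ∀ (i : ℕ), ∀ x ∈ E, (u ^ i) x ∈ E := by
    intro i
    induction i with
    | zero => intro x hx; simpa using hx
    | succ i ih =>
      intro x hx
      rw [pow_succ, Module.End.mul_apply]
      exact ih _ (hEu x hx)
  have hEW : ∀ x ∈ E, W x ∈ E := fun x hx => by
    rw [hW, Wop_apply]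
    exact E.sum_mem fun i _ => E.smul_mem _ (hEup i x hx)
  -- K1
  have K1 : ∀ q : ℕ, ∀ x ∈ E, ∃ e ∈ E,
      (T (g ^ (c.factorial * q)) - 1) x = (q : ℤ) • W x + (q : ℤ) ^ 2 • e := by
    intro q x hx
    have hκ : ∀ k : ℕ, ∃ κ : ℤ, 1 ≤ k → k ≤ c →
        ((Nat.choose (c.factorial * q) k : ℕ) : ℤ) = q * wc c k + (q : ℤ) ^ 2 * κ := by
      intro k
      by_cases h : 1 ≤ k ∧ k ≤ c
      · obtain ⟨κ, hκ⟩ := choose_mod c k q h.1 h.2
        exact ⟨κ, fun _ _ => hκ⟩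
      · exact ⟨0, fun h1 h2 => absurd ⟨h1, h2⟩ h⟩
    choose κ hκ using hκ
    refine ⟨∑ k ∈ (range c).erase 0, κ k • (u ^ k) x, E.sum_mem fun i _ =>
      E.smul_mem _ (hEup i x hx), ?_⟩
    have h1 : T (g ^ (c.factorial * q)) = (u + 1) ^ (c.factorial * q) := by
      rw [map_pow, hu, sub_add_cancel]
    have hmem : (0 : ℕ) ∈ range c := mem_range.2 hc0
    rw [LinearMap.sub_apply, h1, pow_apply_eq' (hcE x hx), ← Finset.add_sum_erase _ _ hmem, hW,
      Wop_apply, ← Finset.add_sum_erase (range c) (fun i => wc c i • (u ^ i) x) hmem]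
    have h2 : wc c 0 = 0 := by simp [wc]
    simp only [Nat.choose_zero_right, Nat.cast_one, one_smul, pow_zero, Module.End.one_apply, h2,
      zero_smul, zero_add]
    rw [add_sub_cancel_left, Finset.smul_sum, Finset.smul_sum, ← Finset.sum_add_distrib]
    refine Finset.sum_congr rfl fun k hk => ?_
    rw [Finset.mem_erase, mem_range] at hk
    rw [hκ k (Nat.one_le_iff_ne_zero.2 hk.1) hk.2.le, add_smul, mul_smul, mul_smul]
  have K1' : ∀ q : ℕ, ∀ x ∈ E, ∃ e ∈ E, (T (g ^ (c.factorial * q)) - 1) x = (q : ℤ) • e := by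
    intro q x hx
    obtain ⟨e, he, h⟩ := K1 q x hx
    refine ⟨W x + (q : ℤ) • e, E.add_mem (hEW x hx) (E.smul_mem _ he), ?_⟩
    rw [h, smul_add, smul_smul, pow_two]
  have K1'' : ∀ q : ℕ, ∀ x ∈ E, ∃ e ∈ E, (T (g ^ (c.factorial * q)) - 1)
      ((T (g ^ (c.factorial * q)) - 1) x) = (q : ℤ) ^ 2 • e := by
    intro q x hx
    obtain ⟨e, he, h⟩ := K1' q x hx
    obtain ⟨e', he', h'⟩ := K1' q e he
    refine ⟨e', he', ?_⟩
    rw [h, map_smul, h', smul_smul, pow_two]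
  -- K2
  have K2 : ∀ q : ℕ, ∀ x ∈ E, ∀ k : ℤ, ∃ e ∈ E, T ((g ^ (c.factorial * q)) ^ k) x =
      x + k • (T (g ^ (c.factorial * q)) - 1) x + (q : ℤ) ^ 2 • e := by
    intro q x hx k
    obtain ⟨e2, he2, h2⟩ := K1'' q x hx
    set y := g ^ (c.factorial * q) with hy
    have hTy : ∀ z, T y z = z + (T y - 1) z := fun z => by
      rw [LinearMap.sub_apply, Module.End.one_apply]; abel
    have hyE : ∀ z ∈ E, T y z ∈ E := hEn _
    have hyE' : ∀ z ∈ E, T y⁻¹ z ∈ E := fun z hz => by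
      have := hEz (-((c.factorial * q : ℕ) : ℤ)) z hz
      rwa [zpow_neg, zpow_natCast] at this
    induction k using Int.induction_on with
    | zero => exact ⟨0, E.zero_mem, by simp⟩
    | succ i ih =>
      obtain ⟨e, he, h⟩ := ih
      refine ⟨T y e + (i : ℤ) • e2, E.add_mem (hyE _ he) (E.smul_mem _ he2), ?_⟩
      rw [add_comm (i : ℤ) 1, zpow_add, zpow_one, map_mul, Module.End.mul_apply, h, map_add,
        map_add, map_smul, map_smul, hTy x, hTy ((T y - 1) x), h2]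
      module
    | pred i ih =>
      obtain ⟨e, he, h⟩ := ih
      have hinv : T y⁻¹ x = x - (T y - 1) x + (q : ℤ) ^ 2 • T y⁻¹ e2 := by
        have h3 : T y (x - (T y - 1) x) + (q : ℤ) ^ 2 • e2 = x := by
          rw [← h2, map_sub, hTy x, hTy ((T y - 1) x)]
          abel
        have h4 : T y⁻¹ (T y (x - (T y - 1) x) + (q : ℤ) ^ 2 • e2) = T y⁻¹ x := by rw [h3]
        rw [map_add, map_smul, ← Module.End.mul_apply, ← map_mul, inv_mul_cancel, map_one,
          Module.End.one_apply] at h4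
        exact h4.symm
      have hinv2 : T y⁻¹ ((T y - 1) x) = (T y - 1) x - (q : ℤ) ^ 2 • T y⁻¹ e2 := by
        have : T y⁻¹ ((T y - 1) x) = x - T y⁻¹ x := by
          rw [LinearMap.sub_apply, map_sub, ← Module.End.mul_apply, ← map_mul, inv_mul_cancel,
            map_one, Module.End.one_apply]
        rw [this, hinv]
        abel
      refine ⟨T y⁻¹ e + T y⁻¹ e2 + (i : ℤ) • T y⁻¹ e2, E.add_mem (E.add_mem (hyE' _ he)
        (hyE' _ he2)) (E.smul_mem _ (hyE' _ he2)), ?_⟩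
      rw [sub_eq_add_neg, add_comm (-(i : ℤ)) (-1), zpow_add, zpow_neg_one, map_mul,
        Module.End.mul_apply, h, map_add, map_add, map_smul, map_smul, hinv, hinv2]
      module
  -- K3
  have K3 : ∀ q : ℕ, ∀ w ∈ orb T (g ^ (c.factorial * q)) N, ∃ n0 ∈ N, ∃ n1 ∈ N, ∃ e ∈ E,
      w = n0 + (T (g ^ (c.factorial * q)) - 1) n1 + (q : ℤ) ^ 2 • e := by
    intro q w hw
    induction hw using Submodule.span_induction with
    | mem x hx =>
      obtain ⟨k, n, hn, rfl⟩ := hx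
      obtain ⟨e, he, h⟩ := K2 q n (hME (hN hn)) k
      exact ⟨n, hn, k • n, N.smul_mem _ hn, e, he, by rw [h, map_smul]⟩
    | zero => exact ⟨0, N.zero_mem, 0, N.zero_mem, 0, E.zero_mem, by simp⟩
    | add x z _ _ h1 h2 =>
      obtain ⟨a, ha, b, hb, e, he, h⟩ := h1
      obtain ⟨a', ha', b', hb', e', he', h'⟩ := h2
      refine ⟨a + a', N.add_mem ha ha', b + b', N.add_mem hb hb', e + e', E.add_mem he he', ?_⟩
      rw [h, h', map_add, smul_add]
      abel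
    | smul r x _ h1 =>
      obtain ⟨a, ha, b, hb, e, he, h⟩ := h1
      refine ⟨r • a, N.smul_mem _ ha, r • b, N.smul_mem _ hb, r • e, E.smul_mem _ he, ?_⟩
      rw [h, smul_add, smul_add, map_smul, smul_comm r ((q : ℤ) ^ 2)]
  -- isolator of `N` in `E`
  let Nh : Submodule ℤ A :=
    { carrier := {x | x ∈ E ∧ ∃ n : ℤ, n ≠ 0 ∧ n • x ∈ N}
      add_mem' := by
        rintro a b ⟨ha, n, hn, h⟩ ⟨hb, m, hm, h'⟩
        refine ⟨E.add_mem ha hb, n * m, mul_ne_zero hn hm, ?_⟩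
        rw [smul_add]
        refine N.add_mem ?_ ?_
        · rw [mul_comm, mul_smul]; exact N.smul_mem _ h
        · rw [mul_smul]; exact N.smul_mem _ h'
      zero_mem' := ⟨E.zero_mem, 1, one_ne_zero, by rw [smul_zero]; exact N.zero_mem⟩
      smul_mem' := by
        rintro r a ⟨ha, n, hn, h⟩
        exact ⟨E.smul_mem _ ha, n, hn, by rw [smul_comm]; exact N.smul_mem _ h⟩ }
  let D : Submodule ℤ A := M.map W ⊔ Nh
  obtain ⟨C, hC, hC'⟩ := exp_rel hEfg D
  -- wlog C positive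
  obtain ⟨C, hC, hC'⟩ : ∃ C : ℕ, 0 < C ∧ ∀ e ∈ E, (∃ n : ℤ, n ≠ 0 ∧ n • e ∈ D) →
      (C : ℤ) • e ∈ D := by
    refine ⟨C.natAbs, Int.natAbs_pos.2 hC, fun e he hn => ?_⟩
    have h1 := hC' e he hn
    rcases Int.natAbs_eq C with h2 | h2
    · rw [← h2]; exact h1
    · have : (C.natAbs : ℤ) = -C := by omega
      rw [this, neg_smul]; exact D.neg_mem h1
  apply resid hM N hu₀
  intro q' hq'
  set q := C * q' with hq
  have hq0 : 0 < q := Nat.mul_pos hC hq'
  obtain ⟨n0, hn0, n1, hn1, e, he, h⟩ := K3 q _ (hyp q hq0)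
  obtain ⟨e1, he1, h1⟩ := K1 q (u₀ - n1) (E.sub_mem (hME hu₀) (hME (hN hn1)))
  rw [map_sub, h] at h1
  have hqz : (q : ℤ) ≠ 0 := by exact_mod_cast hq0.ne'
  -- n0 = q (W m + q (e1 - e))
  have h2 : n0 = (q : ℤ) • (W (u₀ - n1) + (q : ℤ) • (e1 - e)) := by
    have h3 : n0 = (q : ℤ) • W (u₀ - n1) + (q : ℤ) ^ 2 • e1 - (q : ℤ) ^ 2 • e := by
      rw [← h1]; abel
    rw [h3, smul_add, smul_smul, ← pow_two, smul_sub]
    abel
  set m := u₀ - n1 with hm
  have hmM : m ∈ M := M.sub_mem hu₀ (hN hn1)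
  have hee : e1 - e ∈ E := E.sub_mem he1 he
  have hν : W m + (q : ℤ) • (e1 - e) ∈ Nh :=
    ⟨E.add_mem (hEW _ (hME hmM)) (E.smul_mem _ hee), q, hqz, by rw [← h2]; exact hn0⟩
  have h4 : (C : ℤ) • (e1 - e) ∈ D := by
    apply hC' _ hee
    refine ⟨q, hqz, ?_⟩
    have : (q : ℤ) • (e1 - e) = (W m + (q : ℤ) • (e1 - e)) - W m := by abel
    rw [this]
    exact D.sub_mem (Submodule.mem_sup_right hν) (Submodule.mem_sup_left ⟨m, hmM, rfl⟩)
  obtain ⟨_, ⟨m', hm', rfl⟩, ν', hν', h5⟩ := Submodule.mem_sup.1 h4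
  have h6 : m + (q' : ℤ) • m' = 0 := by
    have h7 : W (m + (q' : ℤ) • m') ∈ Nh := by
      have : W (m + (q' : ℤ) • m') = (W m + (q : ℤ) • (e1 - e)) - (q' : ℤ) • ν' := by
        have h8 : (q : ℤ) • (e1 - e) = (q' : ℤ) • (W m' + ν') := by
          rw [h5, smul_smul, hq]
          push_cast
          rw [mul_comm]
        rw [h8, map_add, map_smul, smul_add]
        abel
      rw [this]
      exact Nh.sub_mem hν (Nh.smul_mem _ hν')
    obtain ⟨_, n, hn, h8⟩ := h7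
    exact free _ (M.add_mem hmM (M.smul_mem _ hm')) n hn (hN h8)
  refine ⟨n1, hn1, -m', M.neg_mem hm', ?_⟩
  have h7 : m = -((q' : ℤ) • m') := eq_neg_of_add_eq_zero_left h6
  have h8 : u₀ = n1 + m := by rw [hm]; abel
  rw [h8, h7, smul_neg]

end Pool.Agent.H63.NG
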