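import Mathlib

/-! Linear algebra for the metabelian case of MP_5de1e7_al. -/

set_option autoImplicit false

open Finset Module

namespace Pool.Agent.H63.NG

section Pencil

variable {M U : Type*} [AddCommGroup M] [Module ℚ M] [AddCommGroup U] [Module ℚ U]

/-- rank of a pencil of linear maps can be increased if `χ f ∉ range φ` for some `f ∈ ker φ`. -/
lemma pencil [FiniteDimensional ℚ M] (φ χ : M →ₗ[ℚ] U) (f : M) (hf : φ f = 0)
    (hχ : χ f ∉ LinearMap.range φ) :
    ∃ t : ℕ, finrank ℚ (LinearMap.range φ) < finrank ℚ (LinearMap.range ((t : ℚ) • φ + χ)) := by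
  classical
  set S := LinearMap.range φ with hS
  set w := χ f with hw
  have hw0 : w ≠ 0 := fun h => hχ (by rw [h]; exact S.zero_mem)
  have : FiniteDimensional ℚ S := by rw [hS]; infer_instance
  -- projection
  obtain ⟨π, hπS, hπw⟩ : ∃ π : U →ₗ[ℚ] S, (∀ s : S, π s = s) ∧ π w = 0 := by
    let q : S →ₗ[ℚ] (U ⧸ (Submodule.span ℚ {w})) := (Submodule.mkQ _).comp S.subtype
    have hq : LinearMap.ker q = ⊥ := by
      rw [LinearMap.ker_eq_bot']
      intro s hs
      have h1 : (s : U) ∈ Submodule.span ℚ {w} := by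
        have : Submodule.mkQ (Submodule.span ℚ {w}) (s : U) = 0 := hs
        rwa [Submodule.mkQ_apply, Submodule.Quotient.mk_eq_zero] at this
      obtain ⟨c, hc⟩ := Submodule.mem_span_singleton.1 h1
      by_cases hc0 : c = 0
      · rw [hc0, zero_smul] at hc
        exact Subtype.ext hc.symm
      · exfalso
        apply hχ
        have : w = c⁻¹ • (s : U) := by
          rw [← hc, smul_smul, inv_mul_cancel₀ hc0, one_smul]
        rw [this]
        exact S.smul_mem _ s.2
    obtain ⟨l, hl⟩ := q.exists_leftInverse_of_injective hq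
    refine ⟨l.comp (Submodule.mkQ _), fun s => ?_, ?_⟩
    · have := LinearMap.congr_fun hl s
      simpa [q] using this
    · have : Submodule.mkQ (Submodule.span ℚ {w}) w = 0 := by
        rw [Submodule.mkQ_apply, Submodule.Quotient.mk_eq_zero]
        exact Submodule.mem_span_singleton_self w
      rw [LinearMap.comp_apply, this, map_zero]
  obtain ⟨e, he⟩ := φ.rangeRestrict.exists_rightInverse_of_surjective φ.range_rangeRestrict
  have he' : ∀ s : S, φ (e s) = s := fun s => congrArg Subtype.val (LinearMap.congr_fun he s)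
  let N : S →ₗ[ℚ] S := π.comp (χ.comp e)
  have hfin : Set.Finite {μ : ℚ | Module.End.HasEigenvalue (N : Module.End ℚ S) μ} :=
    Module.End.finite_hasEigenvalue _
  have hinf : Set.Infinite (Set.range (fun t : ℕ => -(t : ℚ))) :=
    Set.infinite_range_of_injective (fun a b h => by
      have : (a : ℚ) = b := neg_injective h
      exact_mod_cast this)
  obtain ⟨_, ⟨t, rfl⟩, ht⟩ := hinf.exists_notMem_finite hfin
  refine ⟨t, ?_⟩
  set ψ := (t : ℚ) • φ + χ with hψ
  let Θ : (S × ℚ) →ₗ[ℚ] U := ψ.comp (e.coprod ((LinearMap.toSpanSingleton ℚ M f)))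
  have hψf : ψ f = w := by simp [hψ, hf, hw]
  have hπψ : ∀ s : S, π (ψ (e s)) = (t : ℚ) • s + N s := by
    intro s
    simp only [hψ, LinearMap.add_apply, LinearMap.smul_apply, he', map_add, map_smul, hπS]
    rfl
  have hinj : Function.Injective Θ := by
    rw [← LinearMap.ker_eq_bot, LinearMap.ker_eq_bot']
    rintro ⟨s, α⟩ h
    have h1 : ψ (e s) + α • w = 0 := by
      have : Θ (s, α) = ψ (e s + α • f) := by simp [Θ]
      rw [this, map_add, map_smul, hψf] at h
      exact h
    have h2 : (t : ℚ) • s + N s = 0 := by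
      have := congrArg π h1
      rw [map_add, map_smul, hπw, smul_zero, add_zero, map_zero, hπψ] at this
      exact this
    have h3 : s = 0 := by
      by_contra hs
      apply ht
      refine Module.End.hasEigenvalue_of_hasEigenvector (x := s) ⟨?_, hs⟩
      rw [Module.End.mem_eigenspace_iff]
      have : N s = -((t : ℚ) • s) := by rw [eq_neg_iff_add_eq_zero, add_comm]; exact h2
      rw [this, neg_smul]
    rw [h3, map_zero, map_zero, zero_add] at h1
    have h4 : α = 0 := (smul_eq_zero.1 h1).resolve_right hw0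
    rw [h3, h4]
    rfl
  have h1 : finrank ℚ (LinearMap.range Θ) = finrank ℚ S + 1 := by
    rw [LinearMap.finrank_range_of_inj hinj, Module.finrank_prod, Module.finrank_self]
  have h2 : LinearMap.range Θ ≤ LinearMap.range ψ := LinearMap.range_comp_le_range _ _
  have h3 := Submodule.finrank_mono h2
  omega

end Pencil

/-! ### commuting locally nilpotent additive families -/

section Family

variable {G : Type*} [Group G] {V : Type*} [AddCommGroup V] [Module ℚ V]

/-- `X : G → End V` additive, commuting, locally nilpotent, without common kernel -/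
structure Fam (X : G → Module.End ℚ V) : Prop where
  add : ∀ g h, X (g * h) = X g + X h
  comm : ∀ g h, X g * X h = X h * X g
  nil : ∀ g v, ∃ n : ℕ, (X g ^ n) v = 0
  nofix : ∀ v, (∀ g, X g v = 0) → v = 0

variable {X : G → Module.End ℚ V}

lemma Fam.pow (hX : Fam X) (g : G) (t : ℕ) : X (g ^ t) = (t : ℚ) • X g := by
  have h1 : X 1 = 0 := by
    have := hX.add 1 1
    rw [mul_one] at this
    simpa using this
  induction t with
  | zero => simp [h1]
  | succ n ih => rw [pow_succ, hX.add, ih]; push_cast; rw [add_smul, one_smul]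

lemma Fam.comm_app (hX : Fam X) (g h : G) (v : V) : X g (X h v) = X h (X g v) :=
  LinearMap.congr_fun (hX.comm g h) v

/-- an operator killing everything -/
lemma Fam.kill (hX : Fam X) (f : V) (hf : f ≠ 0) (s : Finset G) :
    ∃ Y : Module.End ℚ V, (∀ g, Commute Y (X g)) ∧ Y f ≠ 0 ∧ ∀ h ∈ s, X h (Y f) = 0 := by
  classical
  induction s using Finset.induction_on with
  | empty => exact ⟨1, fun g => Commute.one_left _, by simpa using hf, by simp⟩
  | insert h s hs ih =>
    obtain ⟨Y, h1, h2, h3⟩ := ih
    have hex := hX.nil h (Y f)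
    set n := Nat.find hex with hn
    have hn0 : n ≠ 0 := by
      intro h0
      have := Nat.find_spec hex
      rw [← hn, h0] at this
      exact h2 (by simpa using this)
    obtain ⟨m, hm⟩ := Nat.exists_eq_succ_of_ne_zero hn0
    have hmin : (X h ^ m) (Y f) ≠ 0 := Nat.find_min hex (by rw [← hn, hm]; exact Nat.lt_succ_self m)
    have hspec : (X h ^ (m + 1)) (Y f) = 0 := by
      have := Nat.find_spec hex
      rw [← hn, hm] at this
      exact this
    refine ⟨X h ^ m * Y, fun g => ?_, hmin, ?_⟩
    · have h4 : Commute (X h ^ m) (X g) := Commute.pow_left (hX.comm h g) m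
      exact h4.mul_left (h1 g)
    · intro k hk
      rcases Finset.mem_insert.1 hk with rfl | hk
      · change X k ((X k ^ m) (Y f)) = 0
        rw [← Module.End.mul_apply, ← pow_succ']
        exact hspec
      · change X k ((X h ^ m) (Y f)) = 0
        have h4 : Commute (X k) (X h ^ m) := Commute.pow_right (hX.comm k h) m
        rw [← Module.End.mul_apply, h4.eq, Module.End.mul_apply, h3 k hk, map_zero]

/-- the freeness lemma -/
lemma Fam.free (hX : Fam X) (M : Submodule ℚ V) [FiniteDimensional ℚ M] :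
    ∃ g, ∀ m ∈ M, X g m ∈ M → m = 0 := by
  classical
  let φ : G → (M →ₗ[ℚ] V ⧸ M) := fun g => M.mkQ.comp ((X g).comp M.subtype)
  have hφ : ∀ g (m : M), φ g m = 0 ↔ X g m ∈ M := by
    intro g m
    change M.mkQ (X g m) = 0 ↔ _
    rw [Submodule.mkQ_apply, Submodule.Quotient.mk_eq_zero]
  -- choose maximal rank
  obtain ⟨g0, hg0⟩ : ∃ g0, ∀ g, finrank ℚ (LinearMap.range (φ g)) ≤
      finrank ℚ (LinearMap.range (φ g0)) := by
    let A : Set ℕ := Set.range (fun g => finrank ℚ (LinearMap.range (φ g)))
    have hne : A.Nonempty := ⟨_, 1, rfl⟩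
    have hbd : BddAbove A := ⟨finrank ℚ M, by
      rintro _ ⟨g, rfl⟩
      exact LinearMap.finrank_range_le _⟩
    obtain ⟨g0, hg0⟩ := Nat.sSup_mem hne hbd
    exact ⟨g0, fun g => by
      have : finrank ℚ (LinearMap.range (φ g)) ≤ sSup A := le_csSup hbd ⟨g, rfl⟩
      rw [← hg0] at this
      exact this⟩
  refine ⟨g0, ?_⟩
  by_contra hc
  push Not at hc
  obtain ⟨f, hfM, hXf, hf0⟩ := hc
  -- claim
  let M' : Submodule ℚ V := M ⊔ M.map (X g0)
  have : FiniteDimensional ℚ (M.map (X g0)) := inferInstance
  have : FiniteDimensional ℚ M' := Submodule.finiteDimensional_sup _ _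
  have claim : ∀ h, X h f ∈ M' := by
    intro h
    by_contra hh
    have h1 : φ h ⟨f, hfM⟩ ∉ LinearMap.range (φ g0) := by
      rintro ⟨m, hm⟩
      apply hh
      have : M.mkQ (X g0 m) = M.mkQ (X h f) := hm
      rw [Submodule.mkQ_apply, Submodule.mkQ_apply, Submodule.Quotient.eq] at this
      have h2 : X h f = X g0 m - (X g0 m - X h f) := by abel
      rw [h2]
      exact Submodule.sub_mem _ (Submodule.mem_sup_right ⟨m, m.2, rfl⟩)
        (Submodule.mem_sup_left this)
    obtain ⟨t, ht⟩ := pencil (φ g0) (φ h) ⟨f, hfM⟩ ((hφ _ _).2 hXf) h1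
    have h2 : (t : ℚ) • φ g0 + φ h = φ (g0 ^ t * h) := by
      ext m
      simp only [φ, LinearMap.add_apply, LinearMap.smul_apply, LinearMap.comp_apply, hX.add,
        hX.pow, map_add, map_smul]
    rw [h2] at ht
    exact absurd (hg0 (g0 ^ t * h)) (by omega)
  -- the span of the X h f
  let D : Submodule ℚ V := Submodule.span ℚ (Set.range (fun h => X h f))
  have hDle : D ≤ M' := by
    rw [Submodule.span_le]
    rintro _ ⟨h, rfl⟩
    exact claim h
  have : FiniteDimensional ℚ D := Submodule.finiteDimensional_of_le hDle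
  have hDfg : D.FG := (Submodule.fg_iff_finiteDimensional _).2 inferInstance
  rw [Submodule.fg_span_iff_fg_span_finset_subset] at hDfg
  obtain ⟨T, hT, hTD⟩ := hDfg
  have hTpre : ∃ s : Finset G, ∀ v ∈ T, ∃ h ∈ s, X h f = v := by
    choose! k hk using fun v (hv : v ∈ T) => hT hv
    exact ⟨T.image k, fun v hv => ⟨k v, Finset.mem_image_of_mem _ hv, hk v hv⟩⟩
  obtain ⟨s, hs⟩ := hTpre
  obtain ⟨Y, hY1, hY2, hY3⟩ := hX.kill f hf0 s
  apply hY2
  apply hX.nofix
  intro g
  have hcomm : X g (Y f) = Y (X g f) := by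
    rw [← Module.End.mul_apply, ← (hY1 g).eq, Module.End.mul_apply]
  rw [hcomm]
  have h1 : X g f ∈ D := Submodule.subset_span ⟨g, rfl⟩
  have h2 : D ≤ LinearMap.ker Y := by
    change Submodule.span ℚ _ ≤ _
    rw [hTD, Submodule.span_le]
    intro v hv
    obtain ⟨h, hh, rfl⟩ := hs v hv
    change Y (X h f) = 0
    rw [← Module.End.mul_apply, (hY1 h).eq, Module.End.mul_apply]
    exact hY3 h hh
  exact h2 h1

/-- simultaneous freeness -/
lemma Fam.free_multi (hX : Fam X) (M : Submodule ℚ V) [FiniteDimensional ℚ M] {ι : Type*}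
    [DecidableEq ι] (s : Finset ι) :
    ∃ g : ι → G, ∀ m : ι → V, (∀ i ∈ s, m i ∈ M) → ∑ i ∈ s, X (g i) (m i) ∈ M →
      ∀ i ∈ s, m i = 0 := by
  induction s using Finset.induction_on with
  | empty => exact ⟨fun _ => 1, by simp⟩
  | insert a s ha ih =>
    obtain ⟨g, hg⟩ := ih
    let M' : Submodule ℚ V := M ⊔ s.sup (fun i => M.map (X (g i)))
    have : FiniteDimensional ℚ (s.sup (fun i => M.map (X (g i))) : Submodule ℚ V) :=
      Submodule.finiteDimensional_finset_sup _ _
    have : FiniteDimensional ℚ M' := Submodule.finiteDimensional_sup _ _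
    obtain ⟨k, hk⟩ := hX.free M'
    refine ⟨Function.update g a k, fun m hm hsum => ?_⟩
    have hupd : ∀ i ∈ s, Function.update g a k i = g i := fun i hi =>
      Function.update_of_ne (by rintro rfl; exact ha hi) _ _
    rw [Finset.sum_insert ha, Function.update_self] at hsum
    have hsum' : ∑ i ∈ s, X (Function.update g a k i) (m i) = ∑ i ∈ s, X (g i) (m i) :=
      Finset.sum_congr rfl fun i hi => by rw [hupd i hi]
    rw [hsum'] at hsum
    have hrest : ∑ i ∈ s, X (g i) (m i) ∈ M' := by
      refine Submodule.mem_sup_right (Submodule.sum_mem _ fun i hi => ?_)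
      exact (Finset.le_sup (f := fun i => M.map (X (g i))) hi)
        ⟨m i, hm i (Finset.mem_insert_of_mem hi), rfl⟩
    have h1 : X k (m a) ∈ M' := by
      have : X k (m a) = (X k (m a) + ∑ i ∈ s, X (g i) (m i)) - ∑ i ∈ s, X (g i) (m i) := by abel
      rw [this]
      exact Submodule.sub_mem _ (Submodule.mem_sup_left hsum) hrest
    have h2 : m a = 0 :=
      hk (m a) (Submodule.mem_sup_left (hm a (Finset.mem_insert_self _ _))) h1
    rw [h2, map_zero, zero_add] at hsum
    have h3 := hg m (fun i hi => hm i (Finset.mem_insert_of_mem hi)) hsum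
    intro i hi
    rcases Finset.mem_insert.1 hi with rfl | hi
    · exact h2
    · exact h3 i hi

end Family

end Pool.Agent.H63.NG
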