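import Pool.Agent.H63.NG.Lin

/-! Logarithms of commuting locally unipotent operators. -/

set_option autoImplicit false

open Finset Module Polynomial

namespace Pool.Agent.H63.NG

variable {V : Type*} [AddCommGroup V] [Module ℚ V]

/-- coefficients of `log (1 + u)` -/
def lc (k : ℕ) : ℚ := (-1) ^ (k + 1) / k

lemma lc_zero : lc 0 = 0 := by simp [lc]
lemma lc_one : lc 1 = 1 := by simp [lc]

/-- partial sums of the logarithm -/
noncomputable def lgSum (x : Module.End ℚ V) (n : ℕ) : Module.End ℚ V :=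
  ∑ k ∈ range n, lc k • (x - 1) ^ k

lemma lgSum_apply (x : Module.End ℚ V) (n : ℕ) (v : V) :
    lgSum x n v = ∑ k ∈ range n, lc k • ((x - 1) ^ k) v := by
  simp [lgSum, LinearMap.sum_apply]

lemma pow_zero_of_le {u : Module.End ℚ V} {n m : ℕ} {v : V} (h : (u ^ n) v = 0) (hnm : n ≤ m) :
    (u ^ m) v = 0 := by
  obtain ⟨k, rfl⟩ := Nat.exists_eq_add_of_le hnm
  rw [add_comm, pow_add, Module.End.mul_apply, h, map_zero]

lemma lgSum_stable {x : Module.End ℚ V} {n m : ℕ} {v : V} (h : ((x - 1) ^ n) v = 0)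
    (hnm : n ≤ m) : lgSum x m v = lgSum x n v := by
  rw [lgSum_apply, lgSum_apply]
  symm
  apply Finset.sum_subset
  · intro k hk
    rw [mem_range] at hk ⊢
    omega
  · intro k _ hk
    rw [mem_range, not_lt] at hk
    rw [pow_zero_of_le h hk, smul_zero]

/-- locally unipotent -/
def LU (x : Module.End ℚ V) : Prop := ∀ v, ∃ n : ℕ, ((x - 1) ^ n) v = 0

open Classical in
/-- logarithm of a locally unipotent operator -/
noncomputable def lg (x : Module.End ℚ V) (hx : LU x) : Module.End ℚ V where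
  toFun v := lgSum x (Nat.find (hx v)) v
  map_add' v w := by
    set a := Nat.find (hx (v + w)) with ha
    set b := Nat.find (hx v) with hb
    set c := Nat.find (hx w) with hc
    have h1 : ((x - 1) ^ a) (v + w) = 0 := Nat.find_spec (hx (v + w))
    have h2 : ((x - 1) ^ b) v = 0 := Nat.find_spec (hx v)
    have h3 : ((x - 1) ^ c) w = 0 := Nat.find_spec (hx w)
    rw [← lgSum_stable h1 (le_max_left a (max b c)),
      ← lgSum_stable h2 ((le_max_left b c).trans (le_max_right a (max b c))),
      ← lgSum_stable h3 ((le_max_right b c).trans (le_max_right a (max b c))), map_add]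
  map_smul' r v := by
    set a := Nat.find (hx (r • v)) with ha
    set b := Nat.find (hx v) with hb
    have h1 : ((x - 1) ^ a) (r • v) = 0 := Nat.find_spec (hx (r • v))
    have h2 : ((x - 1) ^ b) v = 0 := Nat.find_spec (hx v)
    rw [← lgSum_stable h1 (le_max_left a b), ← lgSum_stable h2 (le_max_right a b), map_smul]
    rfl

lemma lg_eq {x : Module.End ℚ V} (hx : LU x) {n : ℕ} {v : V} (h : ((x - 1) ^ n) v = 0) :
    lg x hx v = lgSum x n v := by
  classical
  have h1 : ((x - 1) ^ (Nat.find (hx v))) v = 0 := Nat.find_spec (hx v)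
  change lgSum x (Nat.find (hx v)) v = _
  rw [← lgSum_stable h1 (le_max_left _ n), ← lgSum_stable h (le_max_right _ n)]

lemma lg_commute {x z : Module.End ℚ V} (hx : LU x) (hz : Commute z x) :
    Commute z (lg x hx) := by
  have hz1 : Commute z (x - 1) := hz.sub_right (Commute.one_right _)
  apply LinearMap.ext
  intro v
  obtain ⟨n, hn⟩ := hx v
  have h2 : ((x - 1) ^ n) (z v) = 0 := by
    rw [← Module.End.mul_apply, ← (hz1.pow_right n).eq, Module.End.mul_apply, hn, map_zero]
  rw [Module.End.mul_apply, Module.End.mul_apply, lg_eq hx hn, lg_eq hx h2, lgSum_apply,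
    lgSum_apply, map_sum]
  refine Finset.sum_congr rfl fun k _ => ?_
  rw [map_smul, ← Module.End.mul_apply, (hz1.pow_right k).eq, Module.End.mul_apply]

lemma lg_nil {x : Module.End ℚ V} (hx : LU x) (n : ℕ) :
    ∀ v, ((x - 1) ^ n) v = 0 → ((lg x hx) ^ n) v = 0 := by
  induction n with
  | zero => intro v hv; simpa using hv
  | succ n ih =>
    intro v hv
    rw [pow_succ, Module.End.mul_apply]
    apply ih
    rw [lg_eq hx hv, lgSum_apply, map_sum]
    apply Finset.sum_eq_zero
    intro k _
    rcases Nat.eq_zero_or_pos k with rfl | hk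
    · rw [lc_zero, zero_smul, map_zero]
    · rw [map_smul, ← Module.End.mul_apply, ← pow_add, pow_zero_of_le hv (by omega), smul_zero]

lemma lg_ker {x : Module.End ℚ V} (hx : LU x) {v : V} (h : lg x hx v = 0) : x v = v := by
  classical
  suffices h1 : (x - 1) v = 0 by
    have : x v - v = 0 := by simpa using h1
    exact sub_eq_zero.1 this
  by_contra hne
  set n := Nat.find (hx v) with hn
  have hspec : ((x - 1) ^ n) v = 0 := Nat.find_spec (hx v)
  have hn2 : 2 ≤ n := by
    by_contra hlt
    have : n = 0 ∨ n = 1 := by omega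
    rcases this with h0 | h0
    · rw [h0] at hspec
      apply hne
      have : v = 0 := by simpa using hspec
      rw [this, map_zero]
    · rw [h0, pow_one] at hspec
      exact hne hspec
  obtain ⟨m, hm⟩ := Nat.exists_eq_add_of_le hn2
  have hmin : ((x - 1) ^ (m + 1)) v ≠ 0 := Nat.find_min (hx v) (by omega)
  apply hmin
  have h1 : ((x - 1) ^ m) (lg x hx v) = ((x - 1) ^ m) 0 := by rw [h]
  rw [lg_eq hx hspec, lgSum_apply, map_sum, map_zero] at h1
  rw [Finset.sum_eq_single 1] at h1
  · rw [lc_one, one_smul, ← Module.End.mul_apply, ← pow_add] at h1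
    exact h1
  · intro k _ hk
    rcases Nat.eq_zero_or_pos k with rfl | hk0
    · rw [lc_zero, zero_smul, map_zero]
    · rw [map_smul, ← Module.End.mul_apply, ← pow_add, pow_zero_of_le hspec (by omega), smul_zero]
  · intro hk
    exact absurd (mem_range.2 (by omega)) hk

/-! ### additivity through binomial polynomials -/

/-- binomial polynomial -/
noncomputable def bp (k : ℕ) : ℚ[X] := C ((1 : ℚ) / (k.factorial : ℚ)) * descPochhammer ℚ k

lemma bp_eval (k n : ℕ) : (bp k).eval (n : ℚ) = (n.choose k : ℚ) := by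
  rw [bp, eval_mul, eval_C, Nat.cast_choose_eq_descPochhammer_div ℚ n k]
  ring

lemma desc_eval_neg_one (k : ℕ) : (descPochhammer ℚ k).eval (-1) = (-1) ^ k * (k.factorial : ℚ) := by
  induction k with
  | zero => simp
  | succ k ih =>
    rw [descPochhammer_succ_right, eval_mul, ih, Nat.factorial_succ]
    simp
    ring

lemma bp_coeff_zero (k : ℕ) : (bp k).coeff 0 = if k = 0 then 1 else 0 := by
  rw [bp, coeff_C_mul, coeff_zero_eq_eval_zero, descPochhammer_eval_zero]
  split_ifs with h
  · subst h; simp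
  · simp

lemma bp_coeff_one (k : ℕ) : (bp k).coeff 1 = lc k := by
  cases k with
  | zero => simp [bp, lc, coeff_one]
  | succ k =>
    rw [bp, coeff_C_mul, descPochhammer_succ_left, coeff_X_mul, coeff_zero_eq_eval_zero, eval_comp]
    have : eval (0 : ℚ) (X - 1) = -1 := by simp
    rw [this, desc_eval_neg_one, lc, Nat.factorial_succ]
    have : (k.factorial : ℚ) ≠ 0 := by exact_mod_cast k.factorial_ne_zero
    push_cast
    field_simp
    ring

lemma pow_apply_eq {x : Module.End ℚ V} {n : ℕ} {v : V} (h : ((x - 1) ^ n) v = 0) (t : ℕ) :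
    (x ^ t) v = ∑ k ∈ range n, (t.choose k : ℚ) • ((x - 1) ^ k) v := by
  have h1 : x ^ t = ∑ k ∈ range (t + 1), (t.choose k : ℚ) • (x - 1) ^ k := by
    have : x = (x - 1) + 1 := by abel
    conv_lhs => rw [this]
    rw [(Commute.one_right (x - 1)).add_pow]
    refine Finset.sum_congr rfl fun k _ => ?_
    rw [one_pow, mul_one, ← Nat.cast_comm, ← nsmul_eq_mul, Nat.cast_smul_eq_nsmul]
  rw [h1, LinearMap.sum_apply]
  have h2 : ∑ k ∈ range (t + 1), ((t.choose k : ℚ) • (x - 1) ^ k) v =
      ∑ k ∈ range (max n (t + 1)), (t.choose k : ℚ) • ((x - 1) ^ k) v := by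
    rw [← Finset.sum_subset (Finset.range_subset_range.2 (le_max_right n (t + 1)))]
    · rfl
    · intro k _ hk
      rw [mem_range, not_lt] at hk
      rw [Nat.choose_eq_zero_of_lt (by omega), Nat.cast_zero, zero_smul]
  rw [h2]
  symm
  apply Finset.sum_subset (Finset.range_subset_range.2 (le_max_left n (t + 1)))
  intro k _ hk
  rw [mem_range, not_lt] at hk
  rw [pow_zero_of_le h hk, smul_zero]

lemma lg_mul {x y : Module.End ℚ V} (hxy : Commute x y) (hx : LU x) (hy : LU y) (h : LU (x * y)) :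
    lg (x * y) h = lg x hx + lg y hy := by
  apply LinearMap.ext
  intro v
  obtain ⟨n1, h1⟩ := hx v
  obtain ⟨n2, h2⟩ := hy v
  obtain ⟨n3, h3⟩ := h v
  set n := max n1 (max n2 (max n3 1)) with hn
  replace h1 : ((x - 1) ^ n) v = 0 := pow_zero_of_le h1 (by omega)
  replace h2 : ((y - 1) ^ n) v = 0 := pow_zero_of_le h2 (by omega)
  replace h3 : ((x * y - 1) ^ n) v = 0 := pow_zero_of_le h3 (by omega)
  have hn1 : 0 < n := by omega
  rw [LinearMap.add_apply, lg_eq hx h1, lg_eq hy h2, lg_eq h h3]
  rw [← sub_eq_zero, ← Module.forall_dual_apply_eq_zero_iff ℚ]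
  intro φ
  rw [map_sub, map_add, sub_eq_zero]
  let p1 : ℚ[X] := ∑ k ∈ range n, C (φ (((x * y - 1) ^ k) v)) * bp k
  let p2 : ℚ[X] := ∑ i ∈ range n, ∑ j ∈ range n,
    C (φ (((x - 1) ^ i) (((y - 1) ^ j) v))) * (bp i * bp j)
  have hp : p1 = p2 := by
    apply Polynomial.eq_of_infinite_eval_eq
    refine Set.Infinite.mono ?_ (Set.infinite_range_of_injective (Nat.cast_injective (R := ℚ)))
    rintro _ ⟨t, rfl⟩
    have e1 : p1.eval (t : ℚ) = φ (((x * y) ^ t) v) := by
      simp only [p1, eval_finsetSum, eval_mul, eval_C, bp_eval]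
      rw [pow_apply_eq h3 t, map_sum]
      refine Finset.sum_congr rfl fun k _ => ?_
      rw [map_smul, smul_eq_mul, mul_comm]
    have e2 : p2.eval (t : ℚ) = φ ((x ^ t) ((y ^ t) v)) := by
      simp only [p2, eval_finsetSum, eval_mul, eval_C, bp_eval]
      rw [pow_apply_eq h2 t, map_sum, map_sum, Finset.sum_comm]
      refine Finset.sum_congr rfl fun j _ => ?_
      have h4 : ((x - 1) ^ n) (((y - 1) ^ j) v) = 0 := by
        have hc : Commute ((x - 1) ^ n) ((y - 1) ^ j) :=
          ((hxy.sub_left (Commute.one_left _)).sub_right (Commute.one_right _)).pow_pow _ _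
        rw [← Module.End.mul_apply, hc.eq, Module.End.mul_apply, h1, map_zero]
      rw [map_smul, map_smul, pow_apply_eq h4 t, map_sum, Finset.smul_sum]
      refine Finset.sum_congr rfl fun i _ => ?_
      rw [map_smul, smul_eq_mul, smul_eq_mul]
      ring
    change p1.eval (t : ℚ) = p2.eval (t : ℚ)
    rw [e1, e2, hxy.mul_pow, Module.End.mul_apply]
  have hc := congrArg (fun p => p.coeff 1) hp
  simp only [p1, p2, finsetSum_coeff, coeff_C_mul] at hc
  simp only [mul_coeff_one, bp_coeff_one, bp_coeff_zero] at hc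
  rw [lgSum_apply, lgSum_apply, lgSum_apply, map_sum, map_sum, map_sum]
  have e1 : ∑ k ∈ range n, φ (lc k • ((x * y - 1) ^ k) v) =
      ∑ k ∈ range n, φ (((x * y - 1) ^ k) v) * lc k :=
    Finset.sum_congr rfl fun k _ => by rw [map_smul, smul_eq_mul, mul_comm]
  rw [e1, hc]
  have e2 : ∀ i j : ℕ, φ (((x - 1) ^ i) (((y - 1) ^ j) v)) *
      ((if i = 0 then (1 : ℚ) else 0) * lc j + lc i * (if j = 0 then (1 : ℚ) else 0)) =
      (if i = 0 then φ (((y - 1) ^ j) v) * lc j else 0) +
      (if j = 0 then φ (((x - 1) ^ i) v) * lc i else 0) := by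
    intro i j
    by_cases hi : i = 0 <;> by_cases hj : j = 0 <;> simp [hi, hj, lc_zero]
  simp only [e2, Finset.sum_add_distrib]
  have hm : (0 : ℕ) ∈ range n := mem_range.2 hn1
  rw [Finset.sum_comm]
  simp only [Finset.sum_ite_eq', hm, if_true]
  rw [add_comm]
  congr 1
  · exact Finset.sum_congr rfl fun k _ => by rw [map_smul, smul_eq_mul, mul_comm]
  · exact Finset.sum_congr rfl fun k _ => by rw [map_smul, smul_eq_mul, mul_comm]

end Pool.Agent.H63.NG
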