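import Pool.Agent.H63.NG.Claim

/-! Torsion-free metabelian groups with the normalizer condition are hypercentral. -/

set_option autoImplicit false

open Finset Module

namespace Pool.Agent.H63.NG

section Emb

variable {G A : Type*} [Group G] [AddCommGroup A] {T : G →* Module.End ℤ A}

/-- torsion-free group -/
def GTF (G : Type*) [Group G] : Prop := ∀ g : G, g ≠ 1 → ¬ IsOfFinOrder g

lemma Emb.ι_zsmul (E : Emb T) (n : ℤ) (a : A) : E.ι (n • a) = E.ι a ^ n := by
  let f : A →+ Additive G :=
    { toFun := fun a => Additive.ofMul (E.ι a)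
      map_zero' := by rw [E.zero]; rfl
      map_add' := fun a b => by rw [E.add]; rfl }
  exact map_zsmul f n a

lemma Emb.tf (E : Emb T) (hG : GTF G) : TF A := by
  intro n a hn hna
  by_contra ha
  have h1 : E.ι a ≠ 1 := fun h => ha (E.inj (h.trans E.zero.symm))
  apply hG _ h1
  rw [isOfFinOrder_iff_zpow_eq_one]
  exact ⟨n, hn, by rw [← E.ι_zsmul, hna, E.zero]⟩

lemma Emb.lu (E : Emb T) (hG : NormalizerCondition G) (g : G) (a : A) :
    ∃ n : ℕ, ((T g - 1) ^ n) a = 0 := by
  obtain ⟨n, hn⟩ := nlemma hG (Subgroup.zpowers g) (fun n => E.ι (((T g - 1) ^ n) a)) (fun _ => g)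
    (fun _ => Subgroup.mem_zpowers g) (fun n => by
      rw [pow_succ', Module.End.mul_apply, LinearMap.sub_apply (T g), Module.End.one_apply, E.sub,
        ← E.conj])
  refine ⟨n + 1, ?_⟩
  obtain ⟨k, hk⟩ := Subgroup.mem_zpowers_iff.1 hn
  have h1 : g * E.ι (((T g - 1) ^ n) a) * g⁻¹ = E.ι (((T g - 1) ^ n) a) := by
    rw [← hk]; group
  rw [E.conj] at h1
  have h2 := E.inj h1
  rw [pow_succ', Module.End.mul_apply, LinearMap.sub_apply, Module.End.one_apply, h2, sub_self]

lemma sum_zero_imp (htf : TF A) {t : Module.End ℤ A} (hlu : ∀ a, ∃ n : ℕ, ((t - 1) ^ n) a = 0)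
    {m : ℕ} (hm : 0 < m) {x : A} (h : (∑ i ∈ range m, t ^ i) x = 0) : x = 0 := by
  classical
  by_contra hx
  set n := Nat.find (hlu x) with hn
  have hspec : ((t - 1) ^ n) x = 0 := Nat.find_spec (hlu x)
  have hn0 : n ≠ 0 := by
    intro h0
    rw [h0] at hspec
    exact hx (by simpa using hspec)
  obtain ⟨k, hk⟩ := Nat.exists_eq_succ_of_ne_zero hn0
  have hmin : ((t - 1) ^ k) x ≠ 0 := Nat.find_min (hlu x) (by omega)
  set z := ((t - 1) ^ k) x with hz
  have hfix : t z = z := by
    have : (t - 1) z = 0 := by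
      rw [hz, ← Module.End.mul_apply, ← pow_succ', ← Nat.succ_eq_add_one, ← hk]
      exact hspec
    rw [LinearMap.sub_apply, Module.End.one_apply] at this
    exact sub_eq_zero.1 this
  have hpow : ∀ i : ℕ, (t ^ i) z = z := by
    intro i
    induction i with
    | zero => simp
    | succ i ih => rw [pow_succ', Module.End.mul_apply, ih, hfix]
  have hcomm : Commute ((t - 1) ^ k) (∑ i ∈ range m, t ^ i) := by
    apply Commute.sum_right
    intro i _
    exact (((Commute.refl t).sub_left (Commute.one_left _)).pow_left k).pow_right i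
  have h1 : (∑ i ∈ range m, t ^ i) z = 0 := by
    rw [hz, ← Module.End.mul_apply, ← hcomm.eq, Module.End.mul_apply, h, map_zero]
  rw [LinearMap.sum_apply, Finset.sum_congr rfl (fun i _ => hpow i), Finset.sum_const,
    card_range] at h1
  apply hmin
  apply htf m z (by exact_mod_cast hm.ne')
  rw [natCast_zsmul]
  exact h1

lemma Emb.c_pow (E : Emb T) (g y : G) (m : ℕ) :
    E.c (g ^ m) y = (∑ i ∈ range m, T g ^ i) (E.c g y) := by
  induction m with
  | zero => simp [E.c_one_left]
  | succ m ih =>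
    rw [pow_succ, E.c_mul_left, ih, sum_range_succ, map_pow, LinearMap.add_apply, add_comm]

lemma Emb.c_eq_zero (E : Emb T) {g h : G} : E.c g h = 0 ↔ g * h = h * g := by
  constructor
  · intro h0
    have h1 := E.hc g h
    rw [h0, E.zero] at h1
    have : g * h * g⁻¹ * h⁻¹ * (h * g) = h * g := by rw [← h1, one_mul]
    rw [← this]; group
  · intro h0
    apply E.inj
    rw [E.hc, E.zero, h0]; group

/-- commuting with a power implies commuting -/
lemma Emb.isolated (E : Emb T) (hG : NormalizerCondition G) (htf : GTF G) {g y : G} {m : ℕ}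
    (hm : 0 < m) (h : g ^ m * y = y * g ^ m) : g * y = y * g := by
  rw [← E.c_eq_zero] at h ⊢
  rw [E.c_pow] at h
  exact sum_zero_imp (E.tf htf) (E.lu hG g) hm h

lemma Emb.T_pow_fix (E : Emb T) (hG : NormalizerCondition G) (htf : GTF G) {g : G} {a : A} {m : ℕ}
    (hm : 0 < m) (h : T (g ^ m) a = a) : T g a = a := by
  have h1 : (∑ i ∈ range m, T g ^ i) ((T g - 1) a) = 0 := by
    rw [← Module.End.mul_apply, geom_sum_mul, LinearMap.sub_apply, ← map_pow, h,
      Module.End.one_apply, sub_self]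
  have h2 := sum_zero_imp (E.tf htf) (E.lu hG g) hm h1
  rw [LinearMap.sub_apply, Module.End.one_apply] at h2
  exact sub_eq_zero.1 h2

/-- a nontrivial torsion-free group with an embedded abelian part satisfying the normalizer
condition has a nontrivial centre -/
theorem Emb.core (E : Emb T) (hG : NormalizerCondition G) (htf : GTF G) (hne : ∃ g : G, g ≠ 1) :
    ∃ g : G, g ≠ 1 ∧ ∀ x, x * g = g * x := by
  by_contra hc
  push Not at hc
  have nofix : ∀ a, (∀ g, T g a = a) → a = 0 := by
    intro a ha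
    by_contra ha0
    have h1 : E.ι a ≠ 1 := fun h => ha0 (E.inj (h.trans E.zero.symm))
    obtain ⟨x, hx⟩ := hc _ h1
    apply hx
    rw [E.mul_ι, ha]
  have hT : Act T := ⟨E.tf htf, E.comm, E.lu hG, nofix⟩
  -- a nonzero element of A
  obtain ⟨a, ha⟩ : ∃ a : A, a ≠ 0 := by
    by_contra hA
    push Not at hA
    obtain ⟨g, hg⟩ := hne
    obtain ⟨x, hx⟩ := hc g hg
    exact hx (E.c_eq_zero.1 (hA _))
  obtain ⟨η, hη⟩ : ∃ η, T η a ≠ a := by
    by_contra h
    push Not at h
    exact ha (nofix a h)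
  apply E.final hT hG (d₀ := a) (η := η)
  intro hmem
  obtain ⟨k, hk⟩ := Subgroup.mem_zpowers_iff.1 hmem
  have h1 : T (η ^ k) = 1 := by rw [hk, E.T_ι]
  rcases eq_or_ne k 0 with h0 | h0
  · rw [h0, zpow_zero] at hk
    have h2 := E.inj (hk.symm.trans E.zero.symm)
    rw [LinearMap.sub_apply, Module.End.one_apply] at h2
    exact hη (sub_eq_zero.1 h2)
  · apply hη
    have hpos : 0 < k.natAbs := Int.natAbs_pos.2 h0
    apply E.T_pow_fix hG htf hpos
    rcases Int.natAbs_eq k with h2 | h2
    · rw [← zpow_natCast, ← h2, h1]; rfl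
    · have h3 : (k.natAbs : ℤ) = -k := by omega
      rw [← zpow_natCast, h3, zpow_neg]
      have h4 : T (η ^ k)⁻¹ = 1 := by
        have h5 : T (η ^ k)⁻¹ * T (η ^ k) = 1 := by rw [← map_mul, inv_mul_cancel, map_one]
        rwa [h1, mul_one] at h5
      rw [h4]; rfl

end Emb

section Concrete

universe u

variable {G : Type u} [Group G]

/-- the conjugation data for an abelian normal subgroup containing all commutators -/
theorem exists_emb (N : Subgroup G) [N.Normal] (hab : ∀ a ∈ N, ∀ b ∈ N, a * b = b * a)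
    (hc : ∀ g h : G, g * h * g⁻¹ * h⁻¹ ∈ N) :
    ∃ (A : Type u) (_ : AddCommGroup A) (T : G →* Module.End ℤ A), Nonempty (Emb T) := by
  let i1 : CommGroup N :=
    { (inferInstance : Group N) with
      mul_comm := fun a b => Subtype.ext (hab a a.2 b b.2) }
  let T : G →* Module.End ℤ (Additive N) :=
    { toFun := fun g => (MonoidHom.toAdditive ((MulAut.conjNormal g : MulAut N).toMonoidHom)).toIntLinearMap
      map_one' := by
        apply LinearMap.ext
        intro a
        change Additive.ofMul ((MulAut.conjNormal (1 : G) : MulAut N) (Additive.toMul a)) = a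
        rw [map_one]; rfl
      map_mul' := fun g h => by
        apply LinearMap.ext
        intro a
        change Additive.ofMul ((MulAut.conjNormal (g * h) : MulAut N) (Additive.toMul a)) = _
        rw [map_mul]; rfl }
  refine ⟨Additive N, inferInstance, T, ⟨?_⟩⟩
  exact
    { ι := fun a => ((Additive.toMul a : N) : G)
      add := fun a b => rfl
      inj := fun a b h => Subtype.ext h
      conj := fun g a => by
        change _ = ((MulAut.conjNormal g : MulAut N) (Additive.toMul a) : G)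
        rw [MulAut.conjNormal_apply]
      c := fun g h => Additive.ofMul ⟨g * h * g⁻¹ * h⁻¹, hc g h⟩
      hc := fun g h => rfl }

/-- metabelian, in the form used here -/
def Metab (G : Type*) [Group G] : Prop :=
  ∀ a ∈ commutator G, ∀ b ∈ commutator G, a * b = b * a

lemma Metab.emb (h : Metab G) :
    ∃ (A : Type u) (_ : AddCommGroup A) (T : G →* Module.End ℤ A), Nonempty (Emb T) :=
  exists_emb (commutator G) h (fun g h =>
    Subgroup.commutator_mem_commutator (Subgroup.mem_top g) (Subgroup.mem_top h))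

lemma Metab.quot (h : Metab G) (N : Subgroup G) [N.Normal] : Metab (G ⧸ N) := by
  have h1 : commutator (G ⧸ N) = (commutator G).map (QuotientGroup.mk' N) := by
    rw [commutator_def, commutator_def, Subgroup.map_commutator,
      Subgroup.map_top_of_surjective _ (QuotientGroup.mk'_surjective N)]
  intro a ha b hb
  rw [h1] at ha hb
  obtain ⟨a, ha, rfl⟩ := ha
  obtain ⟨b, hb, rfl⟩ := hb
  rw [← map_mul, ← map_mul, h a ha b hb]

lemma normalizer_quot (h : NormalizerCondition G) (N : Subgroup G) [N.Normal] :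
    NormalizerCondition (G ⧸ N) := by
  intro H hH
  have hs := QuotientGroup.mk'_surjective N
  have h1 : H.comap (QuotientGroup.mk' N) < ⊤ := by
    rw [lt_top_iff_ne_top] at hH ⊢
    intro h2
    apply hH
    rw [eq_top_iff]
    intro x _
    obtain ⟨y, rfl⟩ := hs x
    have : y ∈ H.comap (QuotientGroup.mk' N) := h2 ▸ Subgroup.mem_top y
    exact this
  have h2 := h _ h1
  refine lt_of_le_of_ne Subgroup.le_normalizer ?_
  intro h3
  apply h2.ne
  apply le_antisymm Subgroup.le_normalizer
  intro x hx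
  have h4 : QuotientGroup.mk' N x ∈ Subgroup.normalizer (H : Set (G ⧸ N)) := by
    rw [Subgroup.mem_normalizer_iff] at hx ⊢
    intro y
    obtain ⟨y, rfl⟩ := hs y
    have := hx y
    rw [Subgroup.mem_comap, Subgroup.mem_comap, map_mul, map_mul, map_inv] at this
    exact this
  rw [← h3] at h4
  exact h4

/-- main theorem -/
theorem main (htf : GTF G) (hG : NormalizerCondition G) (hm : Metab G) (N₀ : Subgroup G)
    (hN₀ : N₀.Normal) (hne : N₀ ≠ ⊤) :
    ∃ g : G, g ∉ N₀ ∧ ∀ x : G, x * g * x⁻¹ * g⁻¹ ∈ N₀ := by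
  by_contra hc
  push Not at hc
  -- maximal isolated normal subgroup inside N₀
  let C : Set (Subgroup G) := {N | N.Normal ∧ N ≤ N₀ ∧ ∀ g : G, ∀ m : ℕ, 0 < m → g ^ m ∈ N → g ∈ N}
  have hbot : (⊥ : Subgroup G) ∈ C := by
    refine ⟨inferInstance, bot_le, fun g m hm hg => ?_⟩
    rw [Subgroup.mem_bot] at hg ⊢
    by_contra hg1
    exact htf g hg1 (isOfFinOrder_iff_pow_eq_one.2 ⟨m, hm, hg⟩)
  obtain ⟨N, -, hN⟩ := zorn_le_nonempty₀ C (by
    intro c hcC hchain L₀ hL₀
    refine ⟨sSup c, ?_, fun s hs => le_sSup hs⟩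
    have hmem : ∀ x, x ∈ sSup c ↔ ∃ s ∈ c, x ∈ s := fun x =>
      Subgroup.mem_sSup_of_directedOn ⟨L₀, hL₀⟩ hchain.directedOn
    refine ⟨⟨fun n hn g => ?_⟩, sSup_le fun s hs => (hcC hs).2.1, fun g m hm hg => ?_⟩
    · obtain ⟨s, hs, hns⟩ := (hmem n).1 hn
      exact (hmem _).2 ⟨s, hs, (hcC hs).1.conj_mem n hns g⟩
    · obtain ⟨s, hs, hgs⟩ := (hmem _).1 hg
      exact (hmem _).2 ⟨s, hs, (hcC hs).2.2 g m hm hgs⟩) ⊥ hbot
  obtain ⟨hNn, hNle, hNiso⟩ := hN.prop
  -- the quotient
  have qN := normalizer_quot hG N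
  have qM := hm.quot N
  have qT : GTF (G ⧸ N) := by
    intro x hx hfin
    obtain ⟨x, rfl⟩ := QuotientGroup.mk_surjective x
    obtain ⟨m, hm0, hm1⟩ := isOfFinOrder_iff_pow_eq_one.1 hfin
    apply hx
    rw [QuotientGroup.eq_one_iff]
    apply hNiso x m hm0
    rw [← QuotientGroup.eq_one_iff]
    exact hm1
  obtain ⟨A, _, T, ⟨E⟩⟩ := qM.emb
  -- the preimage of the centre
  let Z : Subgroup G := (Subgroup.center (G ⧸ N)).comap (QuotientGroup.mk' N)
  have hNZ : N ≤ Z := by
    intro x hx
    rw [Subgroup.mem_comap]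
    have : QuotientGroup.mk' N x = 1 := (QuotientGroup.eq_one_iff x).2 hx
    rw [this]
    exact Subgroup.one_mem _
  have hZC : Z ∈ C := by
    refine ⟨inferInstance, fun g hg => ?_, fun g m hm0 hg => ?_⟩
    · by_contra hgN
      obtain ⟨x, hx⟩ := hc g hgN
      apply hx
      apply hNle
      rw [← QuotientGroup.eq_one_iff]
      have h1 := Subgroup.mem_center_iff.1 hg (QuotientGroup.mk x)
      change (QuotientGroup.mk x : G ⧸ N) * QuotientGroup.mk g =
        QuotientGroup.mk g * QuotientGroup.mk x at h1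
      rw [QuotientGroup.mk_mul, QuotientGroup.mk_mul, QuotientGroup.mk_mul, QuotientGroup.mk_inv,
        QuotientGroup.mk_inv, h1]
      group
    · change QuotientGroup.mk' N g ∈ Subgroup.center (G ⧸ N)
      rw [Subgroup.mem_center_iff]
      intro y
      have h1 : QuotientGroup.mk' N (g ^ m) ∈ Subgroup.center (G ⧸ N) := hg
      rw [Subgroup.mem_center_iff] at h1
      have h2 := h1 y
      rw [map_pow] at h2
      exact (E.isolated qN qT hm0 h2.symm).symm
  have hZN : Z ≤ N := hN.le_of_ge hZC hNZ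
  have hex : ∃ g : G ⧸ N, g ≠ 1 := by
    by_contra h
    push Not at h
    apply hne
    rw [eq_top_iff]
    intro x _
    exact hNle ((QuotientGroup.eq_one_iff x).1 (h _))
  obtain ⟨g, hg1, hgc⟩ := E.core qN qT hex
  obtain ⟨g, rfl⟩ := QuotientGroup.mk_surjective g
  apply hg1
  rw [QuotientGroup.eq_one_iff]
  apply hZN
  change QuotientGroup.mk' N g ∈ Subgroup.center (G ⧸ N)
  rw [Subgroup.mem_center_iff]
  exact hgc

end Concrete

end Pool.Agent.H63.NG
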