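import Pool.Agent.H63.NG.Main

/-! Torsion-free groups with the normalizer condition whose derived subgroup is nilpotent are
hypercentral. -/

set_option autoImplicit false

namespace Pool.Agent.H63.NG

universe u

section Seq

variable {G : Type u} [Group G]

/-- hypercentrality, in the form used in the problem -/
def HyC (G : Type u) [Group G] : Prop :=
  ∀ N : Subgroup G, N.Normal → N ≠ ⊤ → ∃ g : G, g ∉ N ∧ ∀ x : G, x * g * x⁻¹ * g⁻¹ ∈ N

/-- one commutator -/
def stp (x g : G) : G := x * g * x⁻¹ * g⁻¹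

/-- iterated commutators -/
def itc (x : ℕ → G) (g : G) : ℕ → G
  | 0 => g
  | n + 1 => stp (x n) (itc x g n)

lemma itc_succ' (x : ℕ → G) (g : G) (n : ℕ) :
    itc x g (n + 1) = itc (fun i => x (i + 1)) (stp (x 0) g) n := by
  induction n with
  | zero => rfl
  | succ n ih =>
    change stp (x (n + 1)) (itc x g (n + 1)) = _
    rw [ih]; rfl

lemma itc_add (x : ℕ → G) (g : G) (n m : ℕ) :
    itc x g (n + m) = itc (fun i => x (n + i)) (itc x g n) m := by
  induction m with
  | zero => rfl
  | succ m ih =>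
    change stp (x (n + m)) (itc x g (n + m)) = _
    rw [ih]; rfl

/-- `g` is killed by all sequences of commutators -/
def KS (g : G) : Prop := ∀ x : ℕ → G, ∃ n, itc x g n = 1

lemma KS_of_stp {g : G} (h : ∀ x, KS (stp x g)) : KS g := by
  intro x
  obtain ⟨n, hn⟩ := h (x 0) (fun i => x (i + 1))
  exact ⟨n + 1, by rw [itc_succ', hn]⟩

lemma stp_mem {N : Subgroup G} (hN : N.Normal) {g : G} (hg : g ∈ N) (x : G) : stp x g ∈ N :=
  N.mul_mem (hN.conj_mem g hg x) (N.inv_mem hg)

lemma seq_of_hyc (A : Subgroup G) (hA : A.Normal)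
    (h : ∀ N : Subgroup G, N.Normal → A ≤ N → N ≠ ⊤ → ∃ g : G, g ∉ N ∧ ∀ x : G, stp x g ∈ N)
    (g : G) (x : ℕ → G) : ∃ n, itc x g n ∈ A := by
  let C : Set (Subgroup G) := {N | N.Normal ∧ A ≤ N ∧ ∀ g ∈ N, ∀ x : ℕ → G, ∃ n, itc x g n ∈ A}
  have hAC : A ∈ C := ⟨hA, le_rfl, fun g hg x => ⟨0, hg⟩⟩
  obtain ⟨N, -, hN⟩ := zorn_le_nonempty₀ C (by
    intro c hcC hchain L₀ hL₀
    refine ⟨sSup c, ?_, fun s hs => le_sSup hs⟩
    have hmem : ∀ x, x ∈ sSup c ↔ ∃ s ∈ c, x ∈ s := fun x =>
      Subgroup.mem_sSup_of_directedOn ⟨L₀, hL₀⟩ hchain.directedOn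
    refine ⟨⟨fun n hn g => ?_⟩, (hcC hL₀).2.1.trans (le_sSup hL₀), fun g hg x => ?_⟩
    · obtain ⟨s, hs, hns⟩ := (hmem n).1 hn
      exact (hmem _).2 ⟨s, hs, (hcC hs).1.conj_mem n hns g⟩
    · obtain ⟨s, hs, hgs⟩ := (hmem _).1 hg
      exact (hcC hs).2.2 g hgs x) A hAC
  obtain ⟨hNn, hAN, hNs⟩ := hN.prop
  by_contra hcon
  have hNtop : N ≠ ⊤ := by
    rintro rfl
    exact hcon (hNs g (Subgroup.mem_top g) x)
  obtain ⟨g₁, hg₁, hg₁'⟩ := h N hNn hAN hNtop
  let Z : Subgroup G := (Subgroup.center (G ⧸ N)).comap (QuotientGroup.mk' N)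
  have hZmem : ∀ y, y ∈ Z ↔ ∀ x, stp x y ∈ N := by
    intro y
    change QuotientGroup.mk' N y ∈ Subgroup.center (G ⧸ N) ↔ _
    rw [Subgroup.mem_center_iff]
    constructor
    · intro hy x
      have h1 := hy (QuotientGroup.mk x)
      change (QuotientGroup.mk x : G ⧸ N) * QuotientGroup.mk y =
        QuotientGroup.mk y * QuotientGroup.mk x at h1
      rw [← QuotientGroup.eq_one_iff, stp]
      rw [QuotientGroup.mk_mul, QuotientGroup.mk_mul, QuotientGroup.mk_mul, QuotientGroup.mk_inv,
        QuotientGroup.mk_inv, h1]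
      group
    · intro hy x
      obtain ⟨x, rfl⟩ := QuotientGroup.mk_surjective x
      have h1 := hy x
      rw [← QuotientGroup.eq_one_iff, stp] at h1
      rw [QuotientGroup.mk_mul, QuotientGroup.mk_mul, QuotientGroup.mk_mul, QuotientGroup.mk_inv,
        QuotientGroup.mk_inv, mul_inv_eq_one, mul_inv_eq_iff_eq_mul] at h1
      exact h1
  have hZN : N ≤ Z := fun y hy => (hZmem y).2 fun x => stp_mem hNn hy x
  have hZC : Z ∈ C := by
    refine ⟨inferInstance, hAN.trans hZN, fun y hy x => ?_⟩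
    obtain ⟨n, hn⟩ := hNs _ ((hZmem y).1 hy (x 0)) (fun i => x (i + 1))
    exact ⟨n + 1, by rw [itc_succ']; exact hn⟩
  exact hg₁ (hN.le_of_ge hZC hZN ((hZmem g₁).2 hg₁'))

/-- well-founded induction -/
lemma seq_ind {A : Subgroup G} (hs : ∀ (g : G) (x : ℕ → G), ∃ n, itc x g n ∈ A) (P : G → Prop)
    (h0 : ∀ a ∈ A, P a) (h1 : ∀ g, (∀ x, P (stp x g)) → P g) (g : G) : P g := by
  classical
  by_contra hg
  have hstep : ∀ s : {g : G // ¬ P g}, ∃ x, ¬ P (stp x s.1) := by
    intro s
    by_contra h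
    push Not at h
    exact s.2 (h1 s.1 h)
  choose f hf using hstep
  let s : ℕ → {g : G // ¬ P g} := fun n => Nat.rec ⟨g, hg⟩ (fun _ s => ⟨stp (f s) s.1, hf s⟩) n
  have hs0 : (s 0).1 = g := rfl
  have hss : ∀ n, (s (n + 1)).1 = stp (f (s n)) (s n).1 := fun n => rfl
  have hit : ∀ n, itc (fun n => f (s n)) g n = (s n).1 := by
    intro n
    induction n with
    | zero => rfl
    | succ n ih =>
      change stp (f (s n)) (itc _ g n) = _
      rw [ih, hss]
  obtain ⟨n, hn⟩ := hs g (fun n => f (s n))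
  rw [hit] at hn
  exact (s n).2 (h0 _ hn)

lemma hyc_of_seq (h : ∀ g : G, KS g) : HyC G := by
  intro N hN hne
  by_contra hc
  push Not at hc
  apply hne
  rw [eq_top_iff]
  intro g _
  refine seq_ind (A := ⊥) (fun g x => ?_) (fun g => g ∈ N) (fun a ha => ?_) (fun g hg => ?_) g
  · obtain ⟨n, hn⟩ := h g x
    exact ⟨n, by rw [hn]; exact Subgroup.one_mem _⟩
  · rw [Subgroup.mem_bot] at ha
    rw [ha]; exact N.one_mem
  · by_contra hgN
    obtain ⟨x, hx⟩ := hc g hgN
    exact hx (hg x)

/-- in a torsion-free group with the normalizer condition, roots commute -/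
lemma comm_of_pow (hG : NormalizerCondition G) (htf : GTF G) {x y : G} {m : ℕ} (hm : 0 < m)
    (h : x ^ m * y = y * x ^ m) : x * y = y * x := by
  classical
  let a : ℕ → G := fun n => itc (fun _ => x) y n
  have ha : ∀ n, a (n + 1) = x * a n * x⁻¹ * (a n)⁻¹ := fun n => rfl
  have hex : ∃ n, Commute x (a n) := by
    obtain ⟨n, hn⟩ := nlemma hG (Subgroup.zpowers x) a (fun _ => x)
      (fun _ => Subgroup.mem_zpowers x) ha
    obtain ⟨k, hk⟩ := Subgroup.mem_zpowers_iff.1 hn
    exact ⟨n, by rw [← hk]; exact (Commute.refl x).zpow_right k⟩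
  have hpow : ∀ n, Commute (x ^ m) (a n) := by
    intro n
    induction n with
    | zero => exact h
    | succ n ih =>
      rw [ha]
      have h1 : Commute (x ^ m) x := (Commute.refl x).pow_left m
      exact ((h1.mul_right ih).mul_right h1.inv_right).mul_right ih.inv_right
  have hspec : Commute x (a (Nat.find hex)) := Nat.find_spec hex
  rcases Nat.eq_zero_or_pos (Nat.find hex) with h0 | h0
  · rw [h0] at hspec
    exact hspec
  · exfalso
    obtain ⟨k, hk⟩ := Nat.exists_eq_succ_of_ne_zero h0.ne'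
    rw [hk, Nat.succ_eq_add_one] at hspec
    set c := a (k + 1) with hc
    have h1 : x * a k * x⁻¹ = c * a k := by rw [hc, ha]; group
    have h2 : ∀ i : ℕ, x ^ i * a k * (x ^ i)⁻¹ = c ^ i * a k := by
      intro i
      induction i with
      | zero => simp
      | succ i ih =>
        have h3 : x ^ (i + 1) * a k * (x ^ (i + 1))⁻¹ = x * (x ^ i * a k * (x ^ i)⁻¹) * x⁻¹ := by
          rw [pow_succ']; group
        rw [h3, ih]
        have h4 : x * (c ^ i * a k) * x⁻¹ = (x * c ^ i * x⁻¹) * (x * a k * x⁻¹) := by group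
        have h5 : x * c ^ i * x⁻¹ = c ^ i := by
          rw [(hspec.pow_right i).eq]; group
        rw [h4, h5, h1, pow_succ]; group
    have h6 := h2 m
    rw [(hpow k).eq, mul_inv_cancel_right] at h6
    have h7 : c ^ m = 1 := by
      have := h6.symm
      rwa [mul_eq_right] at this
    have h8 : c = 1 := by
      by_contra hc1
      exact htf c hc1 (isOfFinOrder_iff_pow_eq_one.2 ⟨m, hm, h7⟩)
    rw [h8, one_mul] at h1
    have h9 : Commute x (a k) := mul_inv_eq_iff_eq_mul.1 h1
    exact Nat.find_min hex (by omega) h9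

end Seq

section Main

/-- the lower central series of the derived subgroup, as subgroups of `G` -/
def LL (G : Type u) [Group G] : ℕ → Subgroup G
  | 0 => commutator G
  | n + 1 => ⁅LL G n, commutator G⁆

lemma LL_normal (G : Type u) [Group G] (n : ℕ) : (LL G n).Normal := by
  induction n with
  | zero => exact inferInstanceAs (commutator G).Normal
  | succ n ih =>
    have := ih
    exact inferInstanceAs (⁅LL G n, commutator G⁆).Normal

lemma LL_le (G : Type u) [Group G] (n : ℕ) : LL G n ≤ commutator G := by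
  induction n with
  | zero => exact le_rfl
  | succ n ih => exact Subgroup.commutator_le_right _ _

lemma map_commutator_eq {G H : Type u} [Group G] [Group H] (f : G →* H)
    (hf : Function.Surjective f) : (commutator G).map f = commutator H := by
  rw [commutator_def, commutator_def, Subgroup.map_commutator,
    Subgroup.map_top_of_surjective _ hf]

lemma LL_map {G H : Type u} [Group G] [Group H] (f : G →* H) (hf : Function.Surjective f)
    (n : ℕ) : (LL G n).map f = LL H n := by
  induction n with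
  | zero => exact map_commutator_eq f hf
  | succ n ih =>
    change (⁅LL G n, commutator G⁆).map f = ⁅LL H n, commutator H⁆
    rw [Subgroup.map_commutator, ih, map_commutator_eq f hf]

lemma metab_of_LL {G : Type u} [Group G] (h : LL G 1 = ⊥) : Metab G := by
  intro a ha b hb
  have h1 : ⁅commutator G, commutator G⁆ = ⊥ := h
  rw [Subgroup.commutator_eq_bot_iff_le_centralizer] at h1
  exact (Subgroup.mem_centralizer_iff.1 (h1 hb)) a ha

theorem main_nil (n : ℕ) : ∀ (G : Type u) [Group G], GTF G → NormalizerCondition G →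
    LL G (n + 1) = ⊥ → HyC G := by
  induction n with
  | zero =>
    intro G _ htf hG h N hN hne
    exact main htf hG (metab_of_LL h) N hN hne
  | succ n ih =>
    intro G _ htf hG hLL
    set K := commutator G with hK
    set Lc := LL G (n + 1) with hLc
    have hKn : K.Normal := inferInstance
    have hLn : (LL G n).Normal := LL_normal G n
    have hLcn : Lc.Normal := LL_normal G (n + 1)
    have hLcK : Lc ≤ K := LL_le G (n + 1)
    have hLnK : LL G n ≤ K := LL_le G n
    have hcent : ∀ l ∈ Lc, ∀ k ∈ K, l * k = k * l := by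
      intro l hl k hk
      have h1 : ⁅Lc, K⁆ = ⊥ := hLL
      rw [Subgroup.commutator_comm, Subgroup.commutator_eq_bot_iff_le_centralizer] at h1
      exact (Subgroup.mem_centralizer_iff.1 (h1 hk)) l hl
    have f1 : ∀ a : G, (∃ m : ℕ, 0 < m ∧ a ^ m ∈ Lc) → ∀ k ∈ K, a * k = k * a := by
      rintro a ⟨m, hm, ham⟩ k hk
      exact comm_of_pow hG htf hm (hcent _ ham k hk)
    have f2 : ∀ a b : G, (∃ m : ℕ, 0 < m ∧ a ^ m ∈ Lc) → (∃ m : ℕ, 0 < m ∧ b ^ m ∈ Lc) →
        a * b = b * a := by
      rintro a b ha ⟨m, hm, hbm⟩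
      exact (comm_of_pow hG htf hm (f1 a ha _ (hLcK hbm)).symm).symm
    let A : Subgroup G :=
      { carrier := {a | ∃ m : ℕ, 0 < m ∧ a ^ m ∈ Lc}
        one_mem' := ⟨1, one_pos, by rw [one_pow]; exact Lc.one_mem⟩
        mul_mem' := by
          rintro a b ha hb
          have hab : Commute a b := f2 a b ha hb
          obtain ⟨m, hm, ham⟩ := ha
          obtain ⟨k, hk, hbk⟩ := hb
          refine ⟨m * k, Nat.mul_pos hm hk, ?_⟩
          rw [hab.mul_pow]
          refine Lc.mul_mem ?_ ?_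
          · rw [pow_mul]; exact Lc.pow_mem ham k
          · rw [mul_comm m k, pow_mul]; exact Lc.pow_mem hbk m
        inv_mem' := by
          rintro a ⟨m, hm, ham⟩
          exact ⟨m, hm, by rw [inv_pow]; exact Lc.inv_mem ham⟩ }
    have hA : ∀ a, a ∈ A ↔ ∃ m : ℕ, 0 < m ∧ a ^ m ∈ Lc := fun a => Iff.rfl
    have hAn : A.Normal := by
      refine ⟨fun a ha g => ?_⟩
      obtain ⟨m, hm, ham⟩ := ha
      refine ⟨m, hm, ?_⟩
      rw [conj_pow]
      exact hLcn.conj_mem _ ham g
    have hLcA : Lc ≤ A := fun l hl => ⟨1, one_pos, by rwa [pow_one]⟩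
    have hAK : ∀ a ∈ A, ∀ k ∈ K, a * k = k * a := fun a ha => f1 a ha
    have hAA : ∀ a ∈ A, ∀ b ∈ A, a * b = b * a := fun a ha b hb => f2 a b ha hb
    -- the quotient
    have qT : GTF (G ⧸ A) := by
      intro x hx hfin
      obtain ⟨x, rfl⟩ := QuotientGroup.mk_surjective x
      obtain ⟨m, hm0, hm1⟩ := isOfFinOrder_iff_pow_eq_one.1 hfin
      apply hx
      rw [QuotientGroup.eq_one_iff]
      rw [← QuotientGroup.mk_pow, QuotientGroup.eq_one_iff] at hm1
      obtain ⟨k, hk, hk1⟩ := hm1
      exact ⟨m * k, Nat.mul_pos hm0 hk, by rw [pow_mul]; exact hk1⟩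
    have qL : LL (G ⧸ A) (n + 1) = ⊥ := by
      rw [← LL_map (QuotientGroup.mk' A) (QuotientGroup.mk'_surjective A) (n + 1), eq_bot_iff]
      rintro _ ⟨x, hx, rfl⟩
      rw [Subgroup.mem_bot]
      exact (QuotientGroup.eq_one_iff x).2 (hLcA hx)
    have qH : HyC (G ⧸ A) := ih (G ⧸ A) qT (normalizer_quot hG A) qL
    have hseq : ∀ (g : G) (x : ℕ → G), ∃ n, itc x g n ∈ A := by
      apply seq_of_hyc A hAn
      intro N hN hAN hne
      have hs := QuotientGroup.mk'_surjective A
      have hN' : (N.map (QuotientGroup.mk' A)).Normal := hN.map _ hs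
      have hker : ∀ g, QuotientGroup.mk' A g ∈ N.map (QuotientGroup.mk' A) → g ∈ N := by
        rintro g ⟨y, hy, hyg⟩
        have h1 : y⁻¹ * g ∈ A := QuotientGroup.eq.1 hyg
        have h2 := N.mul_mem hy (hAN h1)
        rwa [mul_inv_cancel_left] at h2
      have hne' : N.map (QuotientGroup.mk' A) ≠ ⊤ := by
        intro htop
        apply hne
        rw [eq_top_iff]
        intro g _
        exact hker g (htop ▸ Subgroup.mem_top _)
      obtain ⟨g, hg, hgx⟩ := qH _ hN' hne'
      obtain ⟨g, rfl⟩ := hs g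
      refine ⟨g, fun h => hg ⟨g, h, rfl⟩, fun x => hker _ ?_⟩
      have h1 := hgx (QuotientGroup.mk' A x)
      rw [← map_inv, ← map_inv, ← map_mul, ← map_mul, ← map_mul] at h1
      exact h1
    -- iterated commutators in `A`
    have stpA : ∀ x, ∀ a ∈ A, ∀ b ∈ A, stp x (a * b) = stp x a * stp x b := by
      intro x a ha b hb
      have h1 : x * b * x⁻¹ ∈ A := hAn.conj_mem b hb x
      have h2 : stp x b ∈ A := stp_mem hAn hb x
      have h3 := hAA a ha _ h2
      have h4 := hAA _ (stp_mem hAn ha x) b hb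
      unfold stp at *
      calc x * (a * b) * x⁻¹ * (a * b)⁻¹ = (x * a * x⁻¹) * (x * b * x⁻¹ * b⁻¹) * a⁻¹ := by group
        _ = x * a * x⁻¹ * a⁻¹ * (a * (x * b * x⁻¹ * b⁻¹)) * a⁻¹ := by group
        _ = x * a * x⁻¹ * a⁻¹ * (x * b * x⁻¹ * b⁻¹) := by rw [h3]; group
    have itA : ∀ (x : ℕ → G), ∀ a ∈ A, ∀ n, itc x a n ∈ A := by
      intro x a ha n
      induction n with
      | zero => exact ha
      | succ n ih => exact stp_mem hAn ih _
    have itmul : ∀ (x : ℕ → G), ∀ a ∈ A, ∀ b ∈ A, ∀ n,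
        itc x (a * b) n = itc x a n * itc x b n := by
      intro x a ha b hb n
      induction n with
      | zero => rfl
      | succ n ih =>
        change stp (x n) (itc x (a * b) n) = stp (x n) (itc x a n) * stp (x n) (itc x b n)
        rw [ih, stpA _ _ (itA x a ha n) _ (itA x b hb n)]
    have itone : ∀ (x : ℕ → G) (n : ℕ), itc x 1 n = 1 := by
      intro x n
      induction n with
      | zero => rfl
      | succ n ih =>
        change stp (x n) (itc x 1 n) = 1
        rw [ih]; unfold stp; group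
    have itstay : ∀ (x : ℕ → G) (a : G) (n m : ℕ), itc x a n = 1 → itc x a (n + m) = 1 := by
      intro x a n m h
      rw [itc_add, h, itone]
    let TA : Subgroup G :=
      { carrier := {a | a ∈ A ∧ KS a}
        one_mem' := ⟨A.one_mem, fun x => ⟨0, rfl⟩⟩
        mul_mem' := by
          rintro a b ⟨ha, ha'⟩ ⟨hb, hb'⟩
          refine ⟨A.mul_mem ha hb, fun x => ?_⟩
          obtain ⟨n, hn⟩ := ha' x
          obtain ⟨m, hm⟩ := hb' x
          refine ⟨n + m, ?_⟩
          rw [itmul x a ha b hb, itstay x a n m hn, add_comm n m, itstay x b m n hm, one_mul]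
        inv_mem' := by
          rintro a ⟨ha, ha'⟩
          refine ⟨A.inv_mem ha, fun x => ?_⟩
          obtain ⟨n, hn⟩ := ha' x
          refine ⟨n, ?_⟩
          have h1 := itmul x a ha a⁻¹ (A.inv_mem ha) n
          rw [mul_inv_cancel, itone, hn, one_mul] at h1
          exact h1.symm }
    have hTA : ∀ a, a ∈ TA ↔ a ∈ A ∧ KS a := fun a => Iff.rfl
    -- commutators are killed
    have key : ∀ l : G, l ∈ LL G n → ∀ k ∈ K, l * k * l⁻¹ * k⁻¹ ∈ TA := by
      intro l
      refine seq_ind hseq (fun l => l ∈ LL G n → ∀ k ∈ K, l * k * l⁻¹ * k⁻¹ ∈ TA) ?_ ?_ l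
      · intro a ha _ k hk
        rw [hAK a ha k hk]
        have : k * a * a⁻¹ * k⁻¹ = 1 := by group
        rw [this]; exact TA.one_mem
      · intro l hl hlL k
        refine seq_ind hseq (fun k => k ∈ K → l * k * l⁻¹ * k⁻¹ ∈ TA) ?_ ?_ k
        · intro a ha _
          rw [← hAK a ha l (hLnK hlL)]
          have : a * l * l⁻¹ * a⁻¹ = 1 := by group
          rw [this]; exact TA.one_mem
        · intro k hk hkK
          have hlK := hLnK hlL
          have hmemLc : ∀ l' ∈ LL G n, ∀ k' ∈ K, l' * k' * l'⁻¹ * k'⁻¹ ∈ Lc := by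
            intro l' hl' k' hk'
            have := Subgroup.commutator_mem_commutator hl' hk'
            exact this
          have hclk := hmemLc l hlL k hkK
          refine ⟨hLcA hclk, KS_of_stp fun x => ?_⟩
          have hxl : stp x l ∈ LL G n := stp_mem hLn hlL x
          have hxk : stp x k ∈ K := stp_mem hKn hkK x
          have hkx : x * k * x⁻¹ ∈ K := hKn.conj_mem k hkK x
          have e1 : l * stp x k * l⁻¹ * (stp x k)⁻¹ ∈ TA := hk x hxk
          have e2 : stp x l * (x * k * x⁻¹) * (stp x l)⁻¹ * (x * k * x⁻¹)⁻¹ ∈ TA :=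
            hl x hxl _ hkx
          have hid : stp x (l * k * l⁻¹ * k⁻¹) = (l * stp x k * l⁻¹ * (stp x k)⁻¹) *
              (stp x l * (x * k * x⁻¹) * (stp x l)⁻¹ * (x * k * x⁻¹)⁻¹) := by
            -- abbreviations
            set a := stp x l with hadef
            set b := stp x k with hbdef
            have hal : x * l * x⁻¹ = a * l := by rw [hadef]; unfold stp; group
            have hbk : x * k * x⁻¹ = b * k := by rw [hbdef]; unfold stp; group
            have haK : a ∈ K := hLnK hxl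
            -- central elements
            have c1 := hcent _ (hmemLc l hlL (b * k) (K.mul_mem hxk hkK)) a haK
            have c2 := hcent _ hclk b hxk
            have hconj : x * (l * k * l⁻¹ * k⁻¹) * x⁻¹ =
                (a * l) * (b * k) * (a * l)⁻¹ * (b * k)⁻¹ := by
              rw [← hal, ← hbk]; group
            have c3 := hcent _ (hmemLc a hxl (b * k) (K.mul_mem hxk hkK)) _ (hLcK hclk)
            unfold stp
            rw [hconj, hbk]
            -- [a l, b k] = a [l, b k] a⁻¹ [a, b k]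
            have s1 : (a * l) * (b * k) * (a * l)⁻¹ * (b * k)⁻¹ =
                (a * (l * (b * k) * l⁻¹ * (b * k)⁻¹) * a⁻¹) *
                  (a * (b * k) * a⁻¹ * (b * k)⁻¹) := by group
            have s2 : l * (b * k) * l⁻¹ * (b * k)⁻¹ =
                (l * b * l⁻¹ * b⁻¹) * (b * (l * k * l⁻¹ * k⁻¹) * b⁻¹) := by group
            have s3 : b * (l * k * l⁻¹ * k⁻¹) * b⁻¹ = l * k * l⁻¹ * k⁻¹ := by
              rw [← c2]; group
            have s4 : a * (l * (b * k) * l⁻¹ * (b * k)⁻¹) * a⁻¹ =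
                l * (b * k) * l⁻¹ * (b * k)⁻¹ := by
              rw [← c1]; group
            rw [s1, s4, s2, s3]
            calc l * b * l⁻¹ * b⁻¹ * (l * k * l⁻¹ * k⁻¹) * (a * (b * k) * a⁻¹ * (b * k)⁻¹) *
                (l * k * l⁻¹ * k⁻¹)⁻¹ = l * b * l⁻¹ * b⁻¹ * ((l * k * l⁻¹ * k⁻¹) *
                (a * (b * k) * a⁻¹ * (b * k)⁻¹)) * (l * k * l⁻¹ * k⁻¹)⁻¹ := by group
              _ = l * b * l⁻¹ * b⁻¹ * ((a * (b * k) * a⁻¹ * (b * k)⁻¹) *
                (l * k * l⁻¹ * k⁻¹)) * (l * k * l⁻¹ * k⁻¹)⁻¹ := by rw [c3]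
              _ = l * b * l⁻¹ * b⁻¹ * (a * (b * k) * a⁻¹ * (b * k)⁻¹) := by group
          rw [hid]
          exact (TA.mul_mem e1 e2).2
    have hLcTA : Lc ≤ TA := by
      have : ⁅LL G n, K⁆ ≤ TA := by
        rw [Subgroup.commutator_le]
        intro l hl k hk
        exact key l hl k hk
      exact this
    have hAKS : ∀ a ∈ A, KS a := by
      intro a ha x
      obtain ⟨m, hm, ham⟩ := ha
      obtain ⟨n, hn⟩ := (hLcTA ham).2 x
      refine ⟨n, ?_⟩
      have hpow : ∀ i : ℕ, itc x (a ^ i) n = (itc x a n) ^ i := by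
        intro i
        induction i with
        | zero => rw [pow_zero, pow_zero, itone]
        | succ i ih =>
          rw [pow_succ, pow_succ, itmul x _ (A.pow_mem ⟨m, hm, ham⟩ i) _ ⟨m, hm, ham⟩, ih]
      rw [hpow] at hn
      by_contra h1
      exact htf _ h1 (isOfFinOrder_iff_pow_eq_one.2 ⟨m, hm, hn⟩)
    apply hyc_of_seq
    intro g x
    obtain ⟨n, hn⟩ := hseq g x
    obtain ⟨m, hm⟩ := hAKS _ hn (fun i => x (n + i))
    exact ⟨n + m, by rw [itc_add]; exact hm⟩

lemma LL_of_nilpotent (G : Type u) [Group G] (h : Group.IsNilpotent (commutator G)) :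
    ∃ n, LL G (n + 1) = ⊥ := by
  obtain ⟨n, hn⟩ := (Subgroup.isNilpotent_iff_lowerCentralSeries (commutator G)).1 h
  have hmap : ∀ n, (commutator G).lowerCentralSeries n = LL G n := by
    intro n
    induction n with
    | zero => rfl
    | succ n ih =>
      change ⁅(commutator G).lowerCentralSeries n, commutator G⁆ = ⁅LL G n, commutator G⁆
      rw [ih]
  refine ⟨n, ?_⟩
  change ⁅LL G n, commutator G⁆ = ⊥
  rw [← hmap, hn, Subgroup.commutator_bot_left]

/-- a torsion-free group with the normalizer condition and nilpotent derived subgroup is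
hypercentral -/
theorem nil_by_ab (G : Type u) [Group G] (htf : GTF G) (hG : NormalizerCondition G)
    (h : Group.IsNilpotent (commutator G)) : HyC G := by
  obtain ⟨n, hn⟩ := LL_of_nilpotent G h
  exact main_nil n G htf hG hn

end Main

end Pool.Agent.H63.NG
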